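import Pool.Agent.Run7.h31.White.Push

set_option autoImplicit false
set_option linter.unusedSectionVars false

open scoped Matrix

/-! Graphs with infinite stabilizers whose upper subgraphs are connected. -/

namespace Run7.h31.White

open Pool.Agent.Results.MP_984acc_gt.OrderRaising Run7.h31.Raise Run7.h31.Brown

universe u v

/-- The vertices `a` and `b` are the ends of an edge, and both have height at least `x`. The edge `e`
goes from the vertex `o e` to the vertex `t e`. -/
def JoinedAbove {V A : Type u} {X : Type v} [LinearOrder X] (o t : A → V) (h : V → X) (x : X)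
    (a b : V) : Prop :=
  x ≤ h a ∧ x ≤ h b ∧ ∃ e, (o e = a ∧ t e = b) ∨ (o e = b ∧ t e = a)

/-- The group `H` acts by order-preserving maps on a totally ordered set `X` without greatest element
and, preserving the directions of the edges, on a graph with vertex set `V` and edge set `A`, with
finitely many orbits of vertices and edges and finitely generated stabilizers of the vertices. The
vertices have heights in `X` such that for all `x` the vertices of height at least `x`, and the edges
between them, form a nonempty connected graph. -/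
def HasUpperConnectedGraph (H : Type u) [Group H] : Prop :=
  ∃ (X : Type v) (_ : LinearOrder X) (_ : MulAction H X) (V A : Type u) (_ : MulAction H V)
    (_ : MulAction H A) (o t : A → V) (h : V → X),
    Nonempty X ∧ NoMaxOrder X ∧ OrderInvariant H X ∧
    (∀ (g : H) (e : A), o (g • e) = g • o e ∧ t (g • e) = g • t e) ∧
    (∀ (g : H) (a : V), h (g • a) = g • h a) ∧
    Finite (MulAction.orbitRel.Quotient H V) ∧ Finite (MulAction.orbitRel.Quotient H A) ∧
    (∀ a : V, Group.FG (MulAction.stabilizer H a)) ∧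
    (∀ x : X, ∃ a : V, x ≤ h a) ∧
    ∀ (x : X) (a b : V), x ≤ h a → x ≤ h b → Relation.ReflTransGen (JoinedAbove o t h x) a b

section
variable {H : Type u} [Group H]

theorem fp_one (S : Type u) [Group S] [hS : Group.FG S] : IsFP S 1 := by
  obtain ⟨T, hT⟩ := hS.out
  have e : Fin T.card ≃ T := T.equivFin.symm
  refine ⟨hq T.card, hE0 (fun j => (e j : S)), fun _ => 1, gen_partial _ ?_⟩
  rw [← hT]
  congr 1
  ext x
  constructor
  · rintro ⟨j, rfl⟩
    exact (e j).2
  · intro hx
    exact ⟨e.symm ⟨x, hx⟩, by simp⟩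

theorem fp_zero (S : Type u) [Group S] : IsFP S 0 := by
  refine ⟨fun _ => 1, fun _ => 0, fun _ => 1, ⟨?_, fun h => by omega, fun i hi => by omega,
    fun i hi => by omega⟩⟩
  intro h
  exact one_ne_zero (congrFun h (0 : Fin 1))

/-- the cells of a graph -/
def gY (V A : Type u) : ℕ → Type u
  | 0 => V
  | 1 => A
  | (_ + 2) => PEmpty.{u + 1}

/-- the action -/
instance gAct (V A : Type u) [MulAction H V] [MulAction H A] : ∀ b, MulAction H (gY V A b)
  | 0 => inferInstanceAs (MulAction H V)
  | 1 => inferInstanceAs (MulAction H A)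
  | (_ + 2) =>
    { smul := fun _ x => x
      one_smul := fun _ => rfl
      mul_smul := fun _ _ _ => rfl }

/-- the boundary operator -/
noncomputable def bdr {V A : Type u} (o t : A → V) : (A →₀ ℂ) →ₗ[ℂ] (V →₀ ℂ) :=
  Finsupp.lmapDomain ℂ ℂ t - Finsupp.lmapDomain ℂ ℂ o

/-- the boundary operators -/
noncomputable def gd {V A : Type u} (o t : A → V) :
    ∀ b, (gY V A (b + 1) →₀ ℂ) →ₗ[ℂ] (gY V A b →₀ ℂ)
  | 0 => bdr o t
  | (_ + 1) => 0

/-- the heights -/
def gh {V A : Type u} {X : Type v} [LinearOrder X] (o t : A → V) (h : V → X) :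
    ∀ b, gY V A b → X
  | 0 => h
  | 1 => fun (e : A) => min (h (o e)) (h (t e))
  | (_ + 2) => fun (z : PEmpty.{u + 1}) => z.elim

theorem bdr_apply {V A : Type u} (o t : A → V) (v : A →₀ ℂ) :
    bdr o t v = v.mapDomain t - v.mapDomain o := rfl

theorem bdr_single {V A : Type u} (o t : A → V) (e : A) (c : ℂ) :
    bdr o t (Finsupp.single e c) = Finsupp.single (t e) c - Finsupp.single (o e) c := by
  rw [bdr_apply, Finsupp.mapDomain_single, Finsupp.mapDomain_single]

theorem smin {X : Type v} [LinearOrder X] [MulAction H X] (hX : OrderInvariant H X) (g : H)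
    (a b : X) : g • min a b = min (g • a) (g • b) := by
  rcases le_total a b with h | h
  · rw [min_eq_left h, min_eq_left (hX g _ _ h)]
  · rw [min_eq_right h, min_eq_right (hX g _ _ h)]

theorem graph_path {V A : Type u} {X : Type v} [LinearOrder X] (o t : A → V) (h : V → X) (x : X)
    {a b : V} (hp : Relation.ReflTransGen (JoinedAbove o t h x) a b) :
    ∃ u : A →₀ ℂ, (∀ e, u e ≠ 0 → x ≤ min (h (o e)) (h (t e))) ∧
      bdr o t u = Finsupp.single b 1 - Finsupp.single a 1 := by
  classical
  have hs : ∀ (e : A) (c : ℂ), x ≤ h (o e) → x ≤ h (t e) → ∀ e', (Finsupp.single e c) e' ≠ 0 →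
      x ≤ min (h (o e')) (h (t e')) := by
    intro e c h1 h2 e' he
    have h3 : e' = e := by
      by_contra hne
      exact he (Finsupp.single_eq_of_ne hne)
    rw [h3]
    exact le_min h1 h2
  have ha : ∀ u u' : A →₀ ℂ, (∀ e, u e ≠ 0 → x ≤ min (h (o e)) (h (t e))) →
      (∀ e, u' e ≠ 0 → x ≤ min (h (o e)) (h (t e))) →
      ∀ e, (u + u') e ≠ 0 → x ≤ min (h (o e)) (h (t e)) := by
    intro u u' h1 h2 e he
    by_cases h3 : u e = 0
    · apply h2 e
      intro h4
      apply he
      rw [Finsupp.add_apply, h3, h4, add_zero]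
    · exact h1 e h3
  induction hp with
  | refl =>
    refine ⟨0, fun e he => absurd rfl he, ?_⟩
    rw [sub_self]
    exact map_zero (bdr o t)
  | @tail b c _ hbc ih =>
    obtain ⟨u, hu1, hu2⟩ := ih
    obtain ⟨hb, hc, e, ⟨he1, he2⟩ | ⟨he1, he2⟩⟩ := hbc
    · refine ⟨u + Finsupp.single e 1, ha _ _ hu1 (hs e 1 (he1 ▸ hb) (he2 ▸ hc)), ?_⟩
      rw [map_add, hu2, bdr_single, he1, he2]
      abel
    · refine ⟨u + Finsupp.single e (-1), ha _ _ hu1 (hs e (-1) (he1 ▸ hc) (he2 ▸ hb)), ?_⟩
      rw [map_add, hu2, bdr_single, he1, he2, Finsupp.single_neg, Finsupp.single_neg]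
      abel

theorem graph_exact {V A : Type u} {X : Type v} [LinearOrder X] (o t : A → V) (h : V → X) (x : X)
    (hc : ∀ a b : V, x ≤ h a → x ≤ h b → Relation.ReflTransGen (JoinedAbove o t h x) a b)
    (v : V →₀ ℂ) (hv : ∀ a, v a ≠ 0 → x ≤ h a) (h0 : v.sum (fun _ c => c * (1 : ℂ)) = 0) :
    ∃ u : A →₀ ℂ, (∀ e, u e ≠ 0 → x ≤ min (h (o e)) (h (t e))) ∧
      bdr o t u = v := by
  classical
  by_cases hne : v.support.Nonempty
  · obtain ⟨b, hb⟩ := hne
    have hb' := hv b (Finsupp.mem_support_iff.1 hb)
    have key : ∀ a : V, ∃ u : A →₀ ℂ, a ∈ v.support →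
        (∀ e, u e ≠ 0 → x ≤ min (h (o e)) (h (t e))) ∧
        bdr o t u = Finsupp.single a 1 - Finsupp.single b 1 := by
      intro a
      by_cases ha : a ∈ v.support
      · obtain ⟨u, hu⟩ := graph_path o t h x
          (hc b a hb' (hv a (Finsupp.mem_support_iff.1 ha)))
        exact ⟨u, fun _ => hu⟩
      · exact ⟨0, fun h => absurd h ha⟩
    choose f hf using key
    refine ⟨∑ a ∈ v.support, v a • f a, ?_, ?_⟩
    · intro e he
      rw [Finsupp.finsetSum_apply] at he
      obtain ⟨a, ha, hae⟩ := Finset.exists_ne_zero_of_sum_ne_zero he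
      apply (hf a ha).1 e
      intro h1
      apply hae
      rw [Finsupp.smul_apply, h1, smul_zero]
    · have h1 : bdr o t (∑ a ∈ v.support, v a • f a)
          = ∑ a ∈ v.support, v a • (Finsupp.single a 1 - Finsupp.single b 1 : V →₀ ℂ) := by
        rw [map_sum]
        refine Finset.sum_congr rfl fun a ha => ?_
        rw [map_smul, (hf a ha).2]
      have h4 : ∑ a ∈ v.support, v a • (Finsupp.single a 1 - Finsupp.single b 1 : V →₀ ℂ)
          = (∑ a ∈ v.support, Finsupp.single a (v a))
            - (∑ a ∈ v.support, v a) • (Finsupp.single b (1 : ℂ) : V →₀ ℂ) := by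
        rw [Finset.sum_smul, ← Finset.sum_sub_distrib]
        refine Finset.sum_congr rfl fun a _ => ?_
        rw [smul_sub, Finsupp.smul_single, smul_eq_mul, mul_one]
      have h5 : ∑ a ∈ v.support, v a = 0 := by
        have h6 : v.sum (fun _ c => c * (1 : ℂ)) = ∑ a ∈ v.support, v a * 1 := rfl
        rw [h6] at h0
        rw [← h0]
        exact Finset.sum_congr rfl fun a _ => (mul_one _).symm
      rw [h1, h4, h5, zero_smul, sub_zero]
      exact Finsupp.sum_single v
  · rw [Finset.not_nonempty_iff_eq_empty, Finsupp.support_eq_empty] at hne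
    refine ⟨0, fun e he => absurd rfl he, ?_⟩
    rw [hne]
    exact map_zero (bdr o t)

theorem bdr_smul {V A : Type u} [MulAction H V] [MulAction H A] (o t : A → V)
    (ho : ∀ (g : H) (e : A), o (g • e) = g • o e ∧ t (g • e) = g • t e) (g : H) (e : A) :
    bdr o t (Finsupp.single (g • e) 1)
      = (bdr o t (Finsupp.single e 1)).mapDomain (fun τ => g • τ) := by
  rw [bdr_single, bdr_single, (ho g e).1, (ho g e).2]
  change _ = Finsupp.lmapDomain ℂ ℂ (fun τ : V => g • τ) _
  rw [map_sub]
  change _ = Finsupp.mapDomain _ _ - Finsupp.mapDomain _ _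
  rw [Finsupp.mapDomain_single, Finsupp.mapDomain_single]

theorem bdr_rising {V A : Type u} {X : Type v} [LinearOrder X] (o t : A → V) (h : V → X) (e : A)
    (a : V) (hea : bdr o t (Finsupp.single e 1) a ≠ 0) : min (h (o e)) (h (t e)) ≤ h a := by
  rw [bdr_single] at hea
  have h2 : a = t e ∨ a = o e := by
    by_contra hcon
    push Not at hcon
    apply hea
    rw [Finsupp.sub_apply, Finsupp.single_eq_of_ne hcon.1, Finsupp.single_eq_of_ne hcon.2,
      sub_zero]
  rcases h2 with h2 | h2
  · rw [h2]
    exact min_le_right _ _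
  · rw [h2]
    exact min_le_left _ _

theorem graph_height {X : Type v} [LinearOrder X] [MulAction H X] (hX : OrderInvariant H X)
    {V A : Type u} [MulAction H V] [MulAction H A] (o t : A → V) (h : V → X)
    (ho : ∀ (g : H) (e : A), o (g • e) = g • o e ∧ t (g • e) = g • t e)
    (hh : ∀ (g : H) (a : V), h (g • a) = g • h a) (hne : ∀ x : X, ∃ a : V, x ≤ h a)
    (hc : ∀ (x : X) (a b : V), x ≤ h a → x ≤ h b →
      Relation.ReflTransGen (JoinedAbove o t h x) a b) :
    IsHeightComplex (G := H) 1 (gd o t) (fun _ => (1 : ℂ)) (gh o t h) := by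
  classical
  refine ⟨fun _ _ => rfl, ?_, ?_, ?_, ?_, fun b hb => by omega, ?_, ?_, fun b hb => by omega⟩
  · intro b hb g (e : gY V A (b + 1))
    obtain rfl : b = 0 := by omega
    exact bdr_smul o t ho g e
  · intro b g σ
    match b, σ with
    | 0, (a : V) => exact hh g a
    | 1, (e : A) =>
      change min (h (o (g • e))) (h (t (g • e))) = g • min (h (o e)) (h (t e))
      rw [(ho g e).1, (ho g e).2, hh, hh, smin hX]
    | (_ + 2), (z : PEmpty.{u + 1}) => exact z.elim
  · intro b hb (e : gY V A (b + 1)) (a : gY V A b) hea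
    obtain rfl : b = 0 := by omega
    exact bdr_rising o t h e a hea
  · intro _ (v : A →₀ ℂ)
    change (v.mapDomain t - v.mapDomain o).sum (fun _ c => c * (1 : ℂ)) = 0
    rw [Finsupp.sum_sub_index (fun _ b₁ b₂ => sub_mul b₁ b₂ 1),
      Finsupp.sum_mapDomain_index (fun _ => zero_mul _) (fun _ _ _ => add_mul _ _ _),
      Finsupp.sum_mapDomain_index (fun _ => zero_mul _) (fun _ _ _ => add_mul _ _ _), sub_self]
  · intro x
    obtain ⟨a, ha⟩ := hne x
    exact ⟨a, ha, one_ne_zero⟩
  · intro _ x (v : V →₀ ℂ) hv h0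
    exact graph_exact o t h x (hc x) v hv h0

/-- A graph with connected upper subgraphs gives complexes with exact upper subcomplexes. -/
theorem graph_upper {X : Type v} [LinearOrder X] [MulAction H X] (hX : OrderInvariant H X)
    {V A : Type u} [MulAction H V] [MulAction H A] (o t : A → V) (h : V → X)
    (ho : ∀ (g : H) (e : A), o (g • e) = g • o e ∧ t (g • e) = g • t e)
    (hh : ∀ (g : H) (a : V), h (g • a) = g • h a)
    (hV : Finite (MulAction.orbitRel.Quotient H V))
    (hA : Finite (MulAction.orbitRel.Quotient H A))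
    (hS : ∀ a : V, Group.FG (MulAction.stabilizer H a))
    (hne : ∀ x : X, ∃ a : V, x ≤ h a)
    (hc : ∀ (x : X) (a b : V), x ≤ h a → x ≤ h b →
      Relation.ReflTransGen (JoinedAbove o t h x) a b) :
    ∃ (q : ℕ → ℕ) (E : Matrices H q) (a : Fin (q 0) → ℂ) (w : ∀ i, Fin (q i) → X),
      IsUpperExact 1 E a w := by
  apply upper_of_cells hX 1 (gd o t) (fun _ => (1 : ℂ)) (gh o t h)
    (graph_height hX o t h ho hh hne hc)
  · intro b hb
    match b, hb with
    | 0, _ => exact hV
    | 1, _ => exact hA
  · intro b hb y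
    match b, hb, y with
    | 0, _, (a : V) =>
      have := hS a
      exact fp_one (MulAction.stabilizer H a)
    | 1, _, (e : A) => exact fp_zero (MulAction.stabilizer H e)

theorem graph_virtually {G : Type u} [Group G] (K : Subgroup G) (hK : K.FiniteIndex)
    (h : HasUpperConnectedGraph.{u, v} K) : VirtuallyUpperExact.{u, v} G 1 := by
  obtain ⟨X, _, _, V, A, _, _, o, t, h, h1, h2, hX, ho, hh, hV, hA, hS, hne, hc⟩ := h
  obtain ⟨q, E, a, w, hE⟩ := graph_upper hX o t h ho hh hV hA hS hne hc
  exact ⟨K, hK, X, _, _, h1, h2, q, E, a, w, hX, hE⟩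

end

end Run7.h31.White
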