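import Pool.Agent.Run7.h31.White.Ind

set_option autoImplicit false
set_option linter.unusedSectionVars false

open scoped Matrix

/-! Homomorphisms to the integers from the Euler characteristic. -/

namespace Run7.h31.White

open Pool.Agent.N309.PD
open Pool.Agent.Results.MP_984acc_gt.OrderRaising Run7.h31.Raise Run7.h31.Brown

universe u v

section
variable {K : Type u} [Group K]

/-- A finitely generated group with a nonzero homomorphism to the complex numbers maps onto the
integers. -/
theorem exists_surj (hK : Group.FG K) (φ : K → ℂ) (hφ : ∀ g h, φ (g * h) = φ g + φ h) (g0 : K)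
    (h0 : φ g0 ≠ 0) : ∃ f : K →* Multiplicative ℤ, Function.Surjective f := by
  classical
  obtain ⟨S, hS⟩ := hK.out
  have hφ1 : φ 1 = 0 := by
    have := hφ 1 1
    rw [mul_one] at this
    simpa using this
  have hφi : ∀ g, φ g⁻¹ = - φ g := by
    intro g
    have := hφ g⁻¹ g
    rw [inv_mul_cancel, hφ1] at this
    linear_combination -this
  set A : Submodule ℤ ℂ := Submodule.span ℤ (φ '' S) with hA
  have hmem : ∀ g, φ g ∈ A := by
    intro g
    have hg : g ∈ Subgroup.closure (S : Set K) := by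
      rw [hS]
      exact Subgroup.mem_top g
    induction hg using Subgroup.closure_induction with
    | mem x hx => exact Submodule.subset_span ⟨x, hx, rfl⟩
    | one =>
      rw [hφ1]
      exact A.zero_mem
    | mul x y _ _ ihx ihy =>
      rw [hφ]
      exact A.add_mem ihx ihy
    | inv x _ ih =>
      rw [hφi]
      exact A.neg_mem ih
  have hpow : ∀ (n : ℤ) (g : K), φ (g ^ n) = n • φ g := by
    intro n g
    let F : Multiplicative ℤ →* Multiplicative ℂ :=
      { toFun := fun m => Multiplicative.ofAdd (φ (g ^ (Multiplicative.toAdd m)))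
        map_one' := by
          change Multiplicative.ofAdd (φ (g ^ (0 : ℤ))) = 1
          rw [zpow_zero, hφ1]
          rfl
        map_mul' := fun a b => by
          change Multiplicative.ofAdd (φ (g ^ (Multiplicative.toAdd a + Multiplicative.toAdd b))) = _
          rw [zpow_add, hφ]
          rfl }
    have h1 : F (Multiplicative.ofAdd n) = (F (Multiplicative.ofAdd 1)) ^ n := by
      rw [← map_zpow]
      congr 1
      rw [← ofAdd_zsmul]
      congr 1
      simp
    have h2 : φ (g ^ n) = n • φ (g ^ (1 : ℤ)) := congrArg Multiplicative.toAdd h1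
    rw [h2, zpow_one]
  have hsur : ∀ x ∈ A, ∃ g, φ g = x := by
    intro x hx
    induction hx using Submodule.span_induction with
    | mem x hx =>
      obtain ⟨g, _, rfl⟩ := hx
      exact ⟨g, rfl⟩
    | zero => exact ⟨1, hφ1⟩
    | add x y _ _ ihx ihy =>
      obtain ⟨g, rfl⟩ := ihx
      obtain ⟨h, rfl⟩ := ihy
      exact ⟨g * h, hφ g h⟩
    | smul n x _ ih =>
      obtain ⟨g, rfl⟩ := ih
      exact ⟨g ^ n, hpow n g⟩
  have hfin : Module.Finite ℤ A := by
    apply Module.Finite.span_of_finite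
    exact (S.finite_toSet).image φ
  have hfree : Module.Free ℤ A := Module.free_of_finite_type_torsion_free'
  let b := Module.Free.chooseBasis ℤ A
  obtain ⟨i, hi⟩ : ∃ i, b.coord i ⟨φ g0, hmem g0⟩ ≠ 0 := by
    by_contra hcon
    push Not at hcon
    apply h0
    have h1 : (⟨φ g0, hmem g0⟩ : A) = 0 := by
      apply (b.repr).injective
      rw [map_zero]
      ext i
      exact hcon i
    exact congrArg Subtype.val h1
  refine ⟨{ toFun := fun g => Multiplicative.ofAdd (b.coord i ⟨φ g, hmem g⟩)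
            map_one' := ?_
            map_mul' := ?_ }, ?_⟩
  · have h1 : (⟨φ 1, hmem 1⟩ : A) = 0 := Subtype.ext hφ1
    rw [h1, map_zero]
    rfl
  · intro g h
    have h1 : (⟨φ (g * h), hmem (g * h)⟩ : A) = ⟨φ g, hmem g⟩ + ⟨φ h, hmem h⟩ :=
      Subtype.ext (hφ g h)
    rw [h1, map_add]
    rfl
  · intro n
    obtain ⟨g, hg⟩ := hsur (((Multiplicative.toAdd n) • b i : A) : ℂ) (Subtype.coe_prop _)
    refine ⟨g, ?_⟩
    have h1 : (⟨φ g, hmem g⟩ : A) = (Multiplicative.toAdd n) • b i := Subtype.ext hg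
    change Multiplicative.ofAdd (b.coord i ⟨φ g, hmem g⟩) = n
    rw [h1, map_smul]
    simp

theorem chi_augm : (chi (1 : K →* ℂ)) = augm := rfl

/-- the augmented matrix -/
noncomputable def em {m n : ℕ} (A : Matrix (Fin m) (Fin n) (MonoidAlgebra ℂ K)) :
    Matrix (Fin m) (Fin n) ℂ := A.map augm

theorem augF_vecMul {m n : ℕ} (A : Matrix (Fin m) (Fin n) (MonoidAlgebra ℂ K)) (c : Fin n → ℂ)
    (z : Fin m → MonoidAlgebra ℂ K) : augF c (z ᵥ* A) = augF (em A *ᵥ c) z := by
  rw [augF_apply, augF_apply]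
  have h1 : ∀ j, augm ((z ᵥ* A) j) * c j = ∑ k, augm (z k) * (augm (A k j) * c j) := by
    intro j
    change augm (∑ k, z k * A k j) * c j = _
    rw [map_sum, Finset.sum_mul]
    refine Finset.sum_congr rfl fun k _ => ?_
    rw [map_mul, mul_assoc]
  rw [Finset.sum_congr rfl fun j _ => h1 j, Finset.sum_comm]
  refine Finset.sum_congr rfl fun k _ => ?_
  rw [← Finset.mul_sum]
  rfl

theorem augF_single {m : ℕ} (c : Fin m → ℂ) (j : Fin m) :
    augF c (Pi.single j 1 : Fin m → MonoidAlgebra ℂ K) = c j := by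
  rw [augF_apply, Finset.sum_eq_single j]
  · rw [Pi.single_eq_same, map_one, one_mul]
  · intro i _ hi
    rw [Pi.single_eq_of_ne hi, map_zero, zero_mul]
  · intro h
    exact absurd (Finset.mem_univ j) h

/-- a cocycle which is not a coboundary -/
theorem exists_cocycle {q : ℕ → ℕ} (E : Matrices K q) (a : Fin (q 0) → ℂ)
    (hE : IsPartialResolution 2 E a) (hq : q 0 + q 2 ≤ q 1) :
    ∃ c : Fin (q 1) → ℂ, em (E 1) *ᵥ c = 0 ∧ ∀ d : Fin (q 0) → ℂ, em (E 0) *ᵥ d ≠ c := by
  have h1 := LinearMap.finrank_range_add_finrank_ker (em (E 1)).mulVecLin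
  have h2 := LinearMap.finrank_range_add_finrank_ker (em (E 0)).mulVecLin
  rw [Module.finrank_fin_fun] at h1 h2
  have h3 : Module.finrank ℂ (LinearMap.range (em (E 1)).mulVecLin) ≤ q 2 := by
    refine (Submodule.finrank_le _).trans ?_
    exact le_of_eq (Module.finrank_fin_fun ℂ)
  have h4 : 0 < Module.finrank ℂ (LinearMap.ker (em (E 0)).mulVecLin) := by
    apply Module.finrank_pos_iff_exists_ne_zero.2
    refine ⟨⟨a, ?_⟩, ?_⟩
    · change em (E 0) *ᵥ a = 0
      funext j
      have h5 := augF_vecMul (E 0) a (Pi.single j 1)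
      rw [augF_single, augF_sum] at h5
      rw [← h5]
      exact ((hE.augmentation (by norm_num)).2 _).1 ⟨_, rfl⟩
    · intro h
      exact hE.ne (congrArg Subtype.val h)
  by_contra hcon
  push Not at hcon
  have h5 : LinearMap.ker (em (E 1)).mulVecLin ≤ LinearMap.range (em (E 0)).mulVecLin := by
    intro c hc
    obtain ⟨d, hd⟩ := hcon c hc
    exact ⟨d, hd⟩
  have h6 := Submodule.finrank_mono h5
  have h7 : Module.finrank ℂ (LinearMap.range (em (E 1)).mulVecLin)
      + Module.finrank ℂ (LinearMap.ker (em (E 1)).mulVecLin) = q 1 := h1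
  have h8 : Module.finrank ℂ (LinearMap.ker (em (E 1)).mulVecLin) < q 0 :=
    lt_of_le_of_lt h6 (lt_of_lt_of_le (Nat.lt_add_of_pos_right h4) (le_of_eq h2))
  omega

/-- a nonzero homomorphism from a cocycle which is not a coboundary -/
theorem exists_hom {q : ℕ → ℕ} (E : Matrices K q) (a : Fin (q 0) → ℂ)
    (hE : IsPartialResolution 2 E a) (hq : q 0 + q 2 ≤ q 1) :
    ∃ φ : K → ℂ, (∀ g h, φ (g * h) = φ g + φ h) ∧ ∃ g0, φ g0 ≠ 0 := by
  obtain ⟨c, hc, hcd⟩ := exists_cocycle E a hE hq
  obtain ⟨v, hv⟩ : ∃ v : Fin (q 0) → MonoidAlgebra ℂ K, augF a v = 1 := by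
    have h2 := augF_ne (G := K) a hE.ne
    obtain ⟨v, hv⟩ : ∃ v, augF (G := K) a v ≠ 0 := by
      by_contra hcon
      push Not at hcon
      exact h2 (LinearMap.ext hcon)
    refine ⟨(augF a v)⁻¹ • v, ?_⟩
    rw [map_smul, smul_eq_mul, inv_mul_cancel₀ hv]
  have haug : ∀ x : Fin (q 0) → MonoidAlgebra ℂ K, augF a x = 0 → ∃ y, y ᵥ* E 0 = x := by
    intro x hx
    apply ((hE.augmentation (by norm_num)).2 x).2
    rw [← augF_sum]
    exact hx
  have haug' : ∀ y, augF a (y ᵥ* E 0) = 0 := by
    intro y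
    rw [augF_sum]
    exact ((hE.augmentation (by norm_num)).2 _).1 ⟨y, rfl⟩
  have hg1 : ∀ g : K, augF a (gsm g v - v) = 0 := by
    intro g
    rw [map_sub, augF_char a g v, MonoidHom.one_apply, one_mul, sub_self]
  choose Y hY using fun g => haug _ (hg1 g)
  have key : ∀ y y' : Fin (q 1) → MonoidAlgebra ℂ K, y ᵥ* E 0 = y' ᵥ* E 0 →
      augF c y = augF c y' := by
    intro y y' h
    have h1 : (y - y') ᵥ* E 0 = 0 := by
      rw [Matrix.sub_vecMul, h, sub_self]
    obtain ⟨z, hz⟩ := hE.exact 0 le_rfl (y - y') h1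
    have h2 : augF c (y - y') = 0 := by
      rw [← hz]
      have h3 := augF_vecMul (E 1) c z
      rw [hc] at h3
      have h4 : augF (0 : Fin (q (1 + 1)) → ℂ) z = 0 := by
        rw [augF_apply]
        exact Finset.sum_eq_zero fun j _ => mul_zero _
      exact h3.trans h4
    rw [map_sub, sub_eq_zero] at h2
    exact h2
  have hcK : ∀ (g : K) (y : Fin (q 1) → MonoidAlgebra ℂ K), augF c (gsm g y) = augF c y := by
    intro g y
    rw [augF_char c g y, MonoidHom.one_apply, one_mul]
  refine ⟨fun g => augF c (Y g), ?_, ?_⟩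
  · intro g h
    have h1 := key (Y (g * h)) (gsm g (Y h) + Y g) (by
      rw [hY, Matrix.add_vecMul, ← gsm_vecMul, hY, hY, gsm_mul]
      have e : gsm g (gsm h v - v) = gsm g (gsm h v) - gsm g v := by
        rw [sub_eq_add_neg, gsm_add, sub_eq_add_neg]
        congr 1
        funext j
        exact mul_neg _ _
      rw [e]
      abel)
    change augF c (Y (g * h)) = augF c (Y g) + augF c (Y h)
    rw [h1, map_add, hcK, add_comm]
  · by_contra hcon
    push Not at hcon
    have hker : LinearMap.ker (rmul (E 0)) ≤ LinearMap.ker (augF (G := K) c) := by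
      intro y hy
      have hy' : y ᵥ* E 0 = 0 := hy
      have h1 := key y 0 (by rw [hy', Matrix.zero_vecMul])
      rw [map_zero] at h1
      exact h1
    obtain ⟨θ, hθ⟩ : ∃ θ : (Fin (q 0) → MonoidAlgebra ℂ K) →ₗ[ℂ] ℂ,
        ∀ y, θ (y ᵥ* E 0) = augF c y := by
      have h1 : augF (G := K) c ∈ LinearMap.range (rmul (E 0)).dualMap := by
        rw [LinearMap.range_dualMap_eq_dualAnnihilator_ker]
        rw [Submodule.mem_dualAnnihilator]
        intro y hy
        exact hker hy
      obtain ⟨θ, hθ⟩ := h1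
      refine ⟨θ, fun y => ?_⟩
      exact LinearMap.congr_fun hθ y
    let Θ : (Fin (q 0) → MonoidAlgebra ℂ K) →ₗ[ℂ] ℂ :=
      θ - (augF a).smulRight (θ v)
    have hΘ : ∀ x, Θ x = θ (x - augF a x • v) := by
      intro x
      rw [map_sub, map_smul]
      rfl
    have hΘc : ∀ (g : K) x, Θ (gsm g x) = (1 : K →* ℂ) g * Θ x := by
      intro g x
      rw [MonoidHom.one_apply, one_mul, hΘ, hΘ, augF_char a g x, MonoidHom.one_apply, one_mul]
      obtain ⟨y, hy⟩ := haug (x - augF a x • v) (by
        rw [map_sub, map_smul, hv, smul_eq_mul, mul_one, sub_self])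
      have e : gsm g x - augF a x • v = (gsm g y + augF a x • Y g) ᵥ* E 0 := by
        have e1 : (augF a x • Y g) ᵥ* E 0 = augF a x • (Y g ᵥ* E 0) :=
          (rmul (E 0)).map_smul (augF a x) (Y g)
        rw [Matrix.add_vecMul, ← gsm_vecMul, hy, e1, hY]
        have e2 : gsm g (x - augF a x • v) = gsm g x - augF a x • gsm g v := by
          rw [← gsm_smul, sub_eq_add_neg, gsm_add, sub_eq_add_neg]
          congr 1
          funext j
          exact mul_neg _ _
        rw [e2, smul_sub]
        abel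
      rw [e, hθ, ← hy, hθ, map_add, map_smul, hcK, hcon g, smul_zero, add_zero]
    have hΘe : ∀ x, Θ x = augF (fun i => Θ (Pi.single i 1)) x := by
      intro x
      rw [phi_eq (1 : K →* ℂ) hΘc x, augF_apply]
      rfl
    apply hcd (fun i => Θ (Pi.single i 1))
    funext j
    have h1 := augF_vecMul (E 0) (fun i => Θ (Pi.single i 1)) (Pi.single j 1)
    rw [augF_single, ← hΘe, hΘ, haug', zero_smul, sub_zero, hθ] at h1
    have h2 : augF c (Pi.single j 1 : Fin (q 1) → MonoidAlgebra ℂ K) = c j := augF_single c j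
    exact h1.symm.trans h2

end

end Run7.h31.White
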