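import Pool.Agent.Run7.h31.White.L2Sub

set_option autoImplicit false
set_option linter.unusedSectionVars false

open scoped InnerProductSpace InnerProduct ENNReal
open scoped Matrix

/-! Subgroups with finite free resolutions: the Euler characteristic and the first homology. -/

namespace Run7.h31.White

open Pool.Agent.W649.ZL Pool.Agent.N309.LO Pool.Agent.N309.PD
open Pool.Agent.Results.MP_984acc_gt.OrderRaising Run7.h31.Raise Run7.h31.Brown

universe u v

section finite
variable {K : Type u} [Group K]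

theorem finrank_row [Finite K] (m : ℕ) :
    Module.finrank ℂ (Fin m → MonoidAlgebra ℂ K) = m * Nat.card K := by
  have : Fintype K := Fintype.ofFinite K
  have e : (Fin m → MonoidAlgebra ℂ K) ≃ₗ[ℂ] (Fin m → (K →₀ ℂ)) :=
    LinearEquiv.piCongrRight fun _ => MonoidAlgebra.coeffLinearEquiv ℂ
  rw [e.finrank_eq, Module.finrank_pi_fintype]
  simp [Nat.card_eq_fintype_card]

/-- right multiplication by a matrix -/
noncomputable def rmul {m n : ℕ} (A : Matrix (Fin m) (Fin n) (MonoidAlgebra ℂ K)) :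
    (Fin m → MonoidAlgebra ℂ K) →ₗ[ℂ] (Fin n → MonoidAlgebra ℂ K) where
  toFun x := x ᵥ* A
  map_add' x y := Matrix.add_vecMul A x y
  map_smul' c x := by
    funext j
    change ∑ i, (c • x i) * A i j = c • ∑ i, x i * A i j
    rw [Finset.smul_sum]
    exact Finset.sum_congr rfl fun i _ => smul_mul_assoc _ _ _

/-- A finite group with a finite free resolution is trivial. -/
theorem finite_trivial [Finite K] {q : ℕ → ℕ} (E : Matrices K q) (a : Fin (q 0) → ℂ)
    (hE : IsPartialResolution 2 E a) (hinj : ∀ x, x ᵥ* E 1 = 0 → x = 0) : Nat.card K = 1 := by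
  have : Fintype K := Fintype.ofFinite K
  have hfin : ∀ m : ℕ, FiniteDimensional ℂ (Fin m → MonoidAlgebra ℂ K) := by
    intro m
    have e : (Fin m → MonoidAlgebra ℂ K) ≃ₗ[ℂ] (Fin m → (K →₀ ℂ)) :=
      LinearEquiv.piCongrRight fun _ => MonoidAlgebra.coeffLinearEquiv ℂ
    exact LinearEquiv.finiteDimensional e.symm
  have := hfin (q 0)
  have := hfin (q 1)
  have := hfin (q 2)
  have := hfin (q (0 + 1))
  have := hfin (q (1 + 1))
  have h1 := LinearMap.finrank_range_add_finrank_ker (rmul (E 1))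
  have h2 := LinearMap.finrank_range_add_finrank_ker (rmul (E 0))
  have h3 := LinearMap.finrank_range_add_finrank_ker (augF (G := K) a)
  have k1 : LinearMap.ker (rmul (E 1)) = ⊥ := by
    rw [eq_bot_iff]
    intro x hx
    exact hinj x hx
  have k2 : LinearMap.ker (rmul (E 0)) = LinearMap.range (rmul (E 1)) := by
    ext x
    constructor
    · intro hx
      obtain ⟨y, hy⟩ := hE.exact 0 le_rfl x hx
      exact ⟨y, hy⟩
    · rintro ⟨y, rfl⟩
      change (y ᵥ* E 1) ᵥ* E 0 = 0
      rw [Matrix.vecMul_vecMul, hE.comp 0 le_rfl, Matrix.vecMul_zero]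
  have k3 : LinearMap.ker (augF (G := K) a) = LinearMap.range (rmul (E 0)) := by
    ext x
    rw [LinearMap.mem_ker, augF_sum, ← (hE.augmentation (by norm_num)).2 x]
    rfl
  have k4 : LinearMap.range (augF (G := K) a) = ⊤ := by
    apply LinearMap.range_eq_top.2
    exact LinearMap.surjective (augF_ne a hE.ne)
  rw [k1, finrank_bot, add_zero, finrank_row] at h1
  rw [k2, finrank_row] at h2
  rw [k3, k4, finrank_top, Module.finrank_self, finrank_row] at h3
  have h4 : (q 1) * Nat.card K + 1 = (q 0 + q 2) * Nat.card K := by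
    rw [add_mul]
    have e1 : Module.finrank ℂ (LinearMap.range (rmul (E 1))) = q 2 * Nat.card K := h1
    have e2 : Module.finrank ℂ (LinearMap.range (rmul (E 0)))
        + Module.finrank ℂ (LinearMap.range (rmul (E 1))) = q 1 * Nat.card K := h2
    omega
  have h5 : Nat.card K ∣ 1 := by
    rw [← Nat.dvd_add_right (Dvd.intro_left (q 1) rfl), h4]
    exact Dvd.intro_left _ rfl
  exact Nat.dvd_one.1 h5

end finite

section chi
variable {G : Type u} [Group G]

theorem adj_orth {m n : ℕ} (A : Matrix (Fin m) (Fin n) (MonoidAlgebra ℂ G)) (F : EE G (Fin m)) :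
    opM (adjM A) F = 0 ↔ F ∈ (LinearMap.range (opM A :
      EE G (Fin n) →ₗ[ℂ] EE G (Fin m)))ᗮ := by
  have h3 := ContinuousLinearMap.orthogonal_range (opM A)
  rw [opM_adj] at h3
  rw [h3]
  rfl

/-- the square-summable cycles vanish if the first Betti number is small -/
theorem adj_inj_of_gap [Infinite G] {r : ℕ → ℕ} (D : Matrices G r) (a : Fin (r 0) → ℂ)
    (hD : IsPartialResolution 2 D a) (h : betti D 1 ≤ (r 1 : ℝ) - r 0 - r 2)
    (F : EE G (Fin (r 2))) (hF : opM (adjM (D 1)) F = 0) : F = 0 := by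
  have h1 : harm (0 : EE G (Fin (r (1 + 1))) →L[ℂ] EE G Unit) (opM (D 1)) = ⊥ := by
    apply eq_bot_of_vd_eq_zero
    · exact harm_inv _ _ eqv_zero (opM_eqv (D 1))
    · rw [vd_top_cycles]
      have h3 := cycles_eq D a hD
      have h4 : (r (1 + 1) : ℝ) + kap D 1 - r 1 = (r 2 : ℝ) + kap D 1 - r 1 := rfl
      rw [h4]
      linarith
  have h2 : F ∈ harm (0 : EE G (Fin (r (1 + 1))) →L[ℂ] EE G Unit) (opM (D 1)) :=
    ⟨rfl, (adj_orth (D 1) F).1 hF⟩
  rw [h1] at h2
  exact h2

/-- the Euler characteristic is not positive if the square-summable cycles vanish -/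
theorem chi_le [Infinite G] {q : ℕ → ℕ} (E : Matrices G q) (a : Fin (q 0) → ℂ)
    (hE : IsPartialResolution 2 E a)
    (h : ∀ F : EE G (Fin (q 2)), opM (adjM (E 1)) F = 0 → F = 0) : q 0 + q 2 ≤ q 1 := by
  have h1 : harm (0 : EE G (Fin (q (1 + 1))) →L[ℂ] EE G Unit) (opM (E 1)) = ⊥ := by
    rw [eq_bot_iff]
    intro F hF
    exact h F ((adj_orth (E 1) F).2 hF.2)
  have h2 := vd_top_cycles E 1
  rw [h1, vd_bot] at h2
  have h3 := cycles_eq E a hE
  have h4 : (0 : ℝ) = (q 2 : ℝ) + kap E 1 - q 1 := h2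
  have h5 := betti_nonneg E 1
  have h6 : ((q 0 + q 2 : ℕ) : ℝ) ≤ ((q 1 : ℕ) : ℝ) := by
    push_cast
    linarith
  exact_mod_cast h6

/-- **Subgroups with finite free resolutions have nonpositive Euler characteristic.** -/
theorem sub_chi_le [Infinite G] {r : ℕ → ℕ} (D : Matrices G r) (a : Fin (r 0) → ℂ)
    (hD : IsPartialResolution 2 D a) (h : betti D 1 ≤ (r 1 : ℝ) - r 0 - r 2) (H : Subgroup G)
    (hH : H ≠ ⊥) {q : ℕ → ℕ} (E : Matrices H q) (a' : Fin (q 0) → ℂ)
    (hE : IsPartialResolution 2 E a') (hinj : ∀ x, x ᵥ* E 1 = 0 → x = 0) :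
    q 0 + q 2 ≤ q 1 := by
  have hinf : Infinite H := by
    by_contra hcon
    rw [not_infinite_iff_finite] at hcon
    have h1 := finite_trivial E a' hE hinj
    exact hH ((Subgroup.card_eq_one).1 h1)
  apply chi_le E a' hE
  obtain ⟨F1, F2, p, t, l, f2, g2, k1, h1, hg, h2, h3⟩ := exists_retract (H := H) (D 0) (D 1) a
    hD.ne (fun x hx => (((hD.augmentation (by norm_num)).2 x).2 (by rw [← augF_sum]; exact hx)))
    (fun y => by
      rw [augF_sum]
      exact ((hD.augmentation (by norm_num)).2 _).1 ⟨y, rfl⟩)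
    (fun x hx => hD.exact 0 le_rfl x hx) (hD.comp 0 le_rfl) (E 0) (E 1) a' hE.ne
    (fun x hx => (((hE.augmentation (by norm_num)).2 x).2 (by rw [← augF_sum]; exact hx)))
    (fun y => by
      rw [augF_sum]
      exact ((hE.augmentation (by norm_num)).2 _).1 ⟨y, rfl⟩)
    (fun x hx => hE.exact 0 le_rfl x hx) (hE.comp 0 le_rfl) hinj
  exact sub_inj (D 1) (adj_inj_of_gap D a hD h) (E 1) F1 F2 t l f2 g2 k1 h1 hg h2 h3

end chi

end Run7.h31.White
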