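import Pool.Agent.Run7.h31.Brown.Vanish
import Pool.Agent.Run7.h31.Raise.Half

set_option autoImplicit false
set_option linter.unusedSectionVars false

open scoped InnerProductSpace InnerProduct ENNReal
open scoped Matrix

/-! Two-dimensional complexes whose first Betti number is as small as possible. -/

namespace Run7.h31.White

open Pool.Agent.W649.ZL Pool.Agent.N309.LO Pool.Agent.N309.PD
open Pool.Agent.Results.MP_984acc_gt.OrderRaising Run7.h31.Raise Run7.h31.Brown

universe u v

section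
variable {G : Type u} [Group G]

/-- the dimension of the square-summable cycles of degree two -/
theorem vd_top_cycles {r : ℕ → ℕ} (D : Matrices G r) (i : ℕ) :
    vd (harm (0 : EE G (Fin (r (i + 1))) →L[ℂ] EE G Unit) (opM (D i)))
      = r (i + 1) + kap D i - r i := by
  rw [vd_harm_eq _ _ (opM_eqv (D i)) (fun _ => rfl)]
  have h1 : LinearMap.ker ((0 : EE G (Fin (r (i + 1))) →L[ℂ] EE G Unit) :
      EE G (Fin (r (i + 1))) →ₗ[ℂ] EE G Unit) = ⊤ := by
    rw [eq_top_iff]
    intro F _
    rfl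
  rw [h1, vd_top, Fintype.card_fin, Fintype.card_fin]
  rfl

theorem eqv_zero {J I : Type*} [Fintype J] [Fintype I] :
    Eqv (0 : EE G J →L[ℂ] EE G I) := by
  intro k F
  exact (tr_zero k).symm

/-- the boundary operator is injective if the dimension of the square-summable cycles vanishes -/
theorem inj_of_dim {r : ℕ → ℕ} (D : Matrices G r) (i : ℕ)
    (h : (r (i + 1) : ℝ) + kap D i - r i ≤ 0)
    (x : Fin (r (i + 1)) → MonoidAlgebra ℂ G) (hx : x ᵥ* D i = 0) : x = 0 := by
  have h1 : harm (0 : EE G (Fin (r (i + 1))) →L[ℂ] EE G Unit) (opM (D i)) = ⊥ := by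
    apply eq_bot_of_vd_eq_zero
    · exact harm_inv _ _ eqv_zero (opM_eqv (D i))
    · rw [vd_top_cycles]
      exact h
  have h2 : (LinearMap.range (opM (D i) :
      EE G (Fin (r i)) →ₗ[ℂ] EE G (Fin (r (i + 1)))))ᗮ = ⊥ := by
    rw [eq_bot_iff]
    intro F hF
    rw [← h1]
    exact ⟨rfl, hF⟩
  set Y : Matrix (Fin 1) (Fin (r (i + 1))) (MonoidAlgebra ℂ G) := Matrix.of fun _ => x with hY
  have h3 : Y * D i = 0 := by
    funext l j
    exact congrFun hx j
  have h4 : (LinearMap.range (opM (D i) :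
      EE G (Fin (r i)) →ₗ[ℂ] EE G (Fin (r (i + 1))))).topologicalClosure
      ≤ LinearMap.ker (opM Y : EE G (Fin (r (i + 1))) →ₗ[ℂ] EE G (Fin 1)) := by
    apply Submodule.topologicalClosure_minimal _ _ (ContinuousLinearMap.isClosed_ker (opM Y))
    rintro _ ⟨F, rfl⟩
    change opM Y (opM (D i) F) = 0
    rw [← opM_mul_apply, h3, opM_zero_apply]
  have h5 : (LinearMap.range (opM (D i) :
      EE G (Fin (r i)) →ₗ[ℂ] EE G (Fin (r (i + 1))))).topologicalClosure = ⊤ := by
    rw [Submodule.topologicalClosure_eq_top_iff]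
    exact h2
  rw [h5] at h4
  funext j
  have h6 : opM Y (dl ((1 : G), j)) = 0 := h4 (Submodule.mem_top)
  apply MonoidAlgebra.coeff_injective
  ext g
  have h7 := opM_dl Y (1 : G) g j 0
  rw [h6, inv_one, mul_one] at h7
  exact h7.symm

/-- The zeroth Betti number of an infinite group vanishes. -/
theorem kap_zero [Infinite G] {r : ℕ → ℕ} (D : Matrices G r) (a : Fin (r 0) → ℂ) (n : ℕ)
    (hn : 1 ≤ n) (hD : IsPartialResolution n D a) : kap D 0 = 0 := by
  unfold kap
  rw [ker_bot_infinite (D 0) (augF a) (augF_ne a hD.ne) (fun x => by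
    rw [(hD.augmentation hn).2, augF_sum]), vd_bot]

/-- the dimension of the square-summable cycles of degree two of a two-dimensional complex -/
theorem cycles_eq [Infinite G] {r : ℕ → ℕ} (D : Matrices G r) (a : Fin (r 0) → ℂ)
    (hD : IsPartialResolution 2 D a) :
    (r 2 : ℝ) + kap D 1 - r 1 = betti D 1 - ((r 1 : ℝ) - r 0 - r 2) := by
  rw [betti_succ_kap D 0 (hD.comp 0 le_rfl), kap_zero D a 2 (by norm_num) hD]
  ring

theorem gap_le [Infinite G] {r : ℕ → ℕ} (D : Matrices G r) (a : Fin (r 0) → ℂ)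
    (hD : IsPartialResolution 2 D a) : (r 1 : ℝ) - r 0 - r 2 ≤ betti D 1 := by
  have h1 := vd_top_cycles D 1
  have h2 := vd_nonneg (harm (0 : EE G (Fin (r (1 + 1))) →L[ℂ] EE G Unit) (opM (D 1)))
  rw [h1] at h2
  have h3 := cycles_eq D a hD
  have h4 : (0 : ℝ) ≤ (r 2 : ℝ) + kap D 1 - r 1 := h2
  linarith

theorem inj_of_gap [Infinite G] {r : ℕ → ℕ} (D : Matrices G r) (a : Fin (r 0) → ℂ)
    (hD : IsPartialResolution 2 D a) (h : betti D 1 ≤ (r 1 : ℝ) - r 0 - r 2)
    (x : Fin (r 2) → MonoidAlgebra ℂ G) (hx : x ᵥ* D 1 = 0) : x = 0 := by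
  apply inj_of_dim D 1 _ x hx
  have h3 := cycles_eq D a hD
  have h4 : (r (1 + 1) : ℝ) + kap D 1 - r 1 = (r 2 : ℝ) + kap D 1 - r 1 := rfl
  rw [h4]
  linarith

theorem bound_partial {r : ℕ → ℕ} (D : Matrices G r) (a : Fin (r 0) → ℂ) (m c : ℕ)
    (hD : IsPartialResolution (m + 1) D a) (h : IsRaised.{u, v} G m c) : betti D m ≤ c := by
  rw [betti_bet]
  exact bound_of h D (augF a) (augF_ne a hD.ne) (by
    intro x
    rw [augF_sum]
    exact (hD.augmentation (by omega)).2 x) (fun j hj => hD.comp j (by omega))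
    (fun j hj => hD.exact j (by omega))

theorem index_partial (H : Subgroup G) (hH : H.FiniteIndex) {r : ℕ → ℕ} (D : Matrices G r)
    (a : Fin (r 0) → ℂ) (m c : ℕ) (hD : IsPartialResolution (m + 1) D a)
    (h : IsRaised.{u, v} H m c) : (H.index : ℝ) * betti D m ≤ c := by
  classical
  have : Fintype (G ⧸ H) := Fintype.ofFinite _
  have : Nonempty (G ⧸ H) := ⟨((1 : G) : G ⧸ H)⟩
  have hcard : Fintype.card (G ⧸ H) = H.index := by
    rw [Subgroup.index_eq_card, Nat.card_eq_fintype_card]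
  have hs := trans_out H
  let e : ∀ i, Fin (H.index * r i) ≃ (G ⧸ H) × Fin (r i) := fun i =>
    Fintype.equivOfCardEq (by
      rw [Fintype.card_fin, Fintype.card_prod, Fintype.card_fin, hcard])
  have h1 := res_partial (H := H) hs e (m + 1) D a hD
  have h2 := bound_partial (resD (H := H) e (fun q : G ⧸ H => q.out) D) _ m c h1 h
  rw [betti_res hs e, hcard] at h2
  exact h2

theorem density_partial {r : ℕ → ℕ} (D : Matrices G r) (a : Fin (r 0) → ℂ) (m : ℕ) (ε : ℝ)
    (hD : IsPartialResolution (m + 1) D a) (h : RaisedWithDensity.{u, v} G m ε) :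
    betti D m ≤ ε := by
  apply le_of_forall_gt_imp_ge_of_dense
  intro δ hδ
  obtain ⟨H, c, hH, hR, hc⟩ := h δ hδ
  have h1 := index_partial H hH D a m c hD hR
  have h2 : (0 : ℝ) < H.index := by
    exact_mod_cast Nat.pos_of_ne_zero hH.index_ne_zero
  have h3 : (H.index : ℝ) * betti D m ≤ H.index * δ := by linarith
  exact le_of_mul_le_mul_left h3 h2

end

end Run7.h31.White
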