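import Pool.Agent.Run7.h31.White.Sub

set_option autoImplicit false
set_option linter.unusedSectionVars false

open scoped InnerProductSpace InnerProduct ENNReal
open scoped Matrix

/-! Square-summable chains of subgroups. -/

namespace Run7.h31.White

open Pool.Agent.W649.ZL Pool.Agent.N309.LO Pool.Agent.N309.PD
open Pool.Agent.Results.MP_984acc_gt.OrderRaising Run7.h31.Raise Run7.h31.Brown

universe u v

section
variable {G : Type u} [Group G] {H : Subgroup G}

/-- extension of functions by zero -/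
noncomputable def ez (f : H → ℂ) (g : G) : ℂ := by
  classical
  exact if h : g ∈ H then f ⟨g, h⟩ else 0

theorem ez_mem (f : H → ℂ) (h : H) : ez f (h : G) = f h := by
  classical
  unfold ez
  rw [dif_pos h.2]

theorem ez_not (f : H → ℂ) (g : G) (hg : g ∉ H) : ez f g = 0 := by
  classical
  unfold ez
  rw [dif_neg hg]

theorem coconv_zero {K : Type u} [Group K] (f : K → ℂ) (g : K) : coconv 0 f g = 0 := by
  unfold coconv
  exact Finset.sum_eq_zero fun k hk => absurd hk (by simp)

theorem coconv_add {K : Type u} [Group K] (α β : MonoidAlgebra ℂ K) (f : K → ℂ) (g : K) :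
    coconv (α + β) f g = coconv α f g + coconv β f g := by
  have e : ∀ γ : MonoidAlgebra ℂ K, coconv γ f g
      = γ.coeff.sum (fun k c => (starRingEnd ℂ) c * f (k * g)) := fun _ => rfl
  rw [e, e, e, MonoidAlgebra.coeff_add]
  exact Finsupp.sum_add_index' (fun _ => by rw [map_zero, zero_mul])
    (fun _ _ _ => by rw [map_add, add_mul])

theorem coconv_single {K : Type u} [Group K] (x : K) (c : ℂ) (f : K → ℂ) (g : K) :
    coconv (MonoidAlgebra.single x c) f g = (starRingEnd ℂ) c * f (x * g) := by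
  have e : ∀ γ : MonoidAlgebra ℂ K, coconv γ f g
      = γ.coeff.sum (fun k c => (starRingEnd ℂ) c * f (k * g)) := fun _ => rfl
  rw [e, MonoidAlgebra.coeff_single]
  exact Finsupp.sum_single_index (by rw [map_zero, zero_mul])

theorem cc_same (t : G) (β : MonoidAlgebra ℂ H) (f : H → ℂ) (h : H) :
    coconv (io H β * MonoidAlgebra.single t 1) (ez f) (t⁻¹ * h) = coconv β f h := by
  induction β using MonoidAlgebra.induction_linear with
  | zero => rw [map_zero, zero_mul, coconv_zero, coconv_zero]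
  | add a b ha hb => rw [map_add, add_mul, coconv_add, coconv_add, ha, hb]
  | single s c =>
    rw [io_single, MonoidAlgebra.single_mul_single, mul_one, coconv_single, coconv_single]
    have e : (s : G) * t * (t⁻¹ * h) = ((s * h : H) : G) := by
      rw [Subgroup.coe_mul]
      group
    rw [e, ez_mem]

theorem cc_other (t t' : G) (ht : t * t'⁻¹ ∉ H) (β : MonoidAlgebra ℂ H) (f : H → ℂ) (h : H) :
    coconv (io H β * MonoidAlgebra.single t 1) (ez f) (t'⁻¹ * h) = 0 := by
  induction β using MonoidAlgebra.induction_linear with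
  | zero => rw [map_zero, zero_mul, coconv_zero]
  | add a b ha hb => rw [map_add, add_mul, coconv_add, ha, hb, add_zero]
  | single s c =>
    rw [io_single, MonoidAlgebra.single_mul_single, mul_one, coconv_single, ez_not, mul_zero]
    intro h1
    apply ht
    have e : t * t'⁻¹ = (s : G)⁻¹ * ((s : G) * t * (t'⁻¹ * h)) * (h : G)⁻¹ := by group
    rw [e]
    exact H.mul_mem (H.mul_mem (H.inv_mem s.2) h1) (H.inv_mem h.2)

theorem cc_io_mem (β : MonoidAlgebra ℂ H) (f : H → ℂ) (h : H) :
    coconv (io H β) (ez f) (h : G) = coconv β f h := by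
  have h1 := cc_same (1 : G) β f h
  rwa [← MonoidAlgebra.one_def, mul_one, inv_one, one_mul] at h1

theorem cc_io_not (β : MonoidAlgebra ℂ H) (f : H → ℂ) (g : G) (hg : g ∉ H) :
    coconv (io H β) (ez f) g = 0 := by
  have h1 := cc_other (1 : G) g⁻¹ (by rwa [inv_inv, one_mul]) β f 1
  rwa [← MonoidAlgebra.one_def, mul_one, inv_inv, OneMemClass.coe_one, mul_one] at h1

theorem coconv_sum {K : Type u} [Group K] {ι : Type*} (s : Finset ι)
    (α : ι → MonoidAlgebra ℂ K) (f : K → ℂ) (g : K) :
    coconv (∑ i ∈ s, α i) f g = ∑ i ∈ s, coconv (α i) f g := by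
  classical
  induction s using Finset.induction_on with
  | empty => rw [Finset.sum_empty, Finset.sum_empty, coconv_zero]
  | insert a s ha ih => rw [Finset.sum_insert ha, Finset.sum_insert ha, coconv_add, ih]

/-- extension of square-summable functions by zero -/
noncomputable def ext {q : ℕ} (F : EE H (Fin q)) : EE G (Fin q) :=
  ⟨fun x => ez (fun h => F (h, x.2)) x.1, by
    apply (memlp_two_iff _).2
    have hi : Function.Injective (fun x : H × Fin q => ((x.1 : G), x.2)) := by
      intro x y hxy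
      have h1 := (Prod.ext_iff.1 hxy).1
      have h2 := (Prod.ext_iff.1 hxy).2
      exact Prod.ext (Subtype.ext h1) h2
    rw [← hi.summable_iff]
    · have h1 : Summable (fun x : H × Fin q => ‖F x‖ ^ 2) := (memlp_two_iff _).1 (lp.memℓp F)
      refine h1.congr fun x => ?_
      change _ = ‖ez (fun h => F (h, x.2)) (x.1 : G)‖ ^ 2
      rw [ez_mem]
    · intro x hx
      have h2 : x.1 ∉ H := by
        intro h
        exact hx ⟨(⟨x.1, h⟩, x.2), rfl⟩
      rw [ez_not _ _ h2, norm_zero]
      norm_num⟩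

theorem ext_apply {q : ℕ} (F : EE H (Fin q)) (g : G) (j : Fin q) :
    ext F (g, j) = ez (fun h => F (h, j)) g := rfl

theorem opM_ext {q q' : ℕ} (A : Matrix (Fin q') (Fin q) (MonoidAlgebra ℂ H))
    (F : EE H (Fin q')) (hF : opM (adjM A) F = 0) : opM (adjM (A.map (io H))) (ext F) = 0 := by
  ext ⟨g, j⟩
  rw [opM_adj_apply]
  change ∑ k, coconv (io H (A k j)) (ez (fun h => F (h, k))) g = 0
  by_cases hg : g ∈ H
  · have h1 : ∀ k, coconv (io H (A k j)) (ez (fun h => F (h, k))) g
        = coconv (A k j) (fun h => F (h, k)) ⟨g, hg⟩ := fun k =>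
      cc_io_mem (A k j) (fun h => F (h, k)) ⟨g, hg⟩
    rw [Finset.sum_congr rfl fun k _ => h1 k, ← opM_adj_apply A F j ⟨g, hg⟩, hF]
    rfl
  · exact Finset.sum_eq_zero fun k _ => cc_io_not _ _ g hg

theorem adjM_mul' {J L M : ℕ} (A : Matrix (Fin L) (Fin J) (MonoidAlgebra ℂ G))
    (B : Matrix (Fin M) (Fin L) (MonoidAlgebra ℂ G)) : adjM (B * A) = adjM A * adjM B := by
  funext j m
  change sig (∑ l, B m l * A l j) = ∑ l, sig (A l j) * sig (B m l)
  rw [sig_sum]
  exact Finset.sum_congr rfl fun l _ => sig_mul _ _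

theorem sub_inj {r1 r2 q1 q2 p : ℕ} (D1 : Matrix (Fin r2) (Fin r1) (MonoidAlgebra ℂ G))
    (hG : ∀ F : EE G (Fin r2), opM (adjM D1) F = 0 → F = 0)
    (E1 : Matrix (Fin q2) (Fin q1) (MonoidAlgebra ℂ H))
    (F1 : Matrix (Fin q1) (Fin r1) (MonoidAlgebra ℂ G))
    (F2 : Matrix (Fin q2) (Fin r2) (MonoidAlgebra ℂ G)) (t : Fin p → G)
    (l : Fin p → Fin r2) (f2 : Matrix (Fin q2) (Fin p) (MonoidAlgebra ℂ H))
    (g2 : Matrix (Fin p) (Fin q2) (MonoidAlgebra ℂ H))
    (k1 : Matrix (Fin q1) (Fin q2) (MonoidAlgebra ℂ H))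
    (h1 : E1.map (io H) * F1 = F2 * D1) (hg : Good H t l) (h2 : ∀ k, tau H t l (f2 k) = F2 k)
    (h3 : f2 * g2 + E1 * k1 = 1) (F : EE H (Fin q2)) (hF : opM (adjM E1) F = 0) : F = 0 := by
  classical
  have hz : opM (adjM F2) (ext F) = 0 := by
    apply hG
    rw [← opM_mul_apply, ← adjM_mul', ← h1, adjM_mul', opM_mul_apply, opM_ext E1 F hF, map_zero]
  have hf : opM (adjM f2) F = 0 := by
    ext ⟨h, j⟩
    rw [opM_adj_apply]
    change ∑ k, coconv (f2 k j) (fun x => F (x, k)) h = 0
    have h4 : opM (adjM F2) (ext F) ((t j)⁻¹ * h, l j) = 0 := by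
      rw [hz]
      rfl
    rw [opM_adj_apply] at h4
    rw [← h4]
    refine Finset.sum_congr rfl fun k _ => ?_
    change _ = coconv (F2 k (l j)) (ez (fun x => F (x, k))) ((t j)⁻¹ * h)
    rw [← h2 k]
    unfold tau
    rw [coconv_sum, Finset.sum_eq_single j]
    · rw [if_pos rfl, cc_same]
    · intro m _ hm
      by_cases h5 : l m = l j
      · rw [if_pos h5]
        apply cc_other
        intro h6
        exact hm (hg m j h5 h6)
      · rw [if_neg h5, coconv_zero]
    · intro h5
      exact absurd (Finset.mem_univ j) h5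
  have h7 : opM (adjM (1 : Matrix (Fin q2) (Fin q2) (MonoidAlgebra ℂ H))) F = 0 := by
    rw [← h3]
    have e : adjM (f2 * g2 + E1 * k1) = adjM g2 * adjM f2 + adjM k1 * adjM E1 := by
      rw [← adjM_mul', ← adjM_mul']
      funext i j
      exact sig_add _ _
    rw [e]
    have e2 : opM (adjM g2 * adjM f2 + adjM k1 * adjM E1) F
        = opM (adjM g2 * adjM f2) F + opM (adjM k1 * adjM E1) F := by
      exact opM_add_apply _ _ F
    rw [e2, opM_mul_apply, opM_mul_apply, hf, hF, map_zero, map_zero, add_zero]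
  ext ⟨h, j⟩
  have h8 : opM (adjM (1 : Matrix (Fin q2) (Fin q2) (MonoidAlgebra ℂ H))) F (h, j) = 0 := by
    rw [h7]
    rfl
  rw [opM_adj_apply, Finset.sum_eq_single j] at h8
  · rw [Matrix.one_apply_eq, MonoidAlgebra.one_def, coconv_single, map_one, one_mul, one_mul] at h8
    exact h8
  · intro k _ hk
    rw [Matrix.one_apply_ne hk, coconv_zero]
  · intro h9
    exact absurd (Finset.mem_univ j) h9

end

end Run7.h31.White
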