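import Pool.Agent.Run7.h31.White.Inj

set_option autoImplicit false
set_option linter.unusedSectionVars false

open scoped Matrix

/-! Pushing the edges of Cayley graphs upwards. -/

namespace Run7.h31.White

open Pool.Agent.Results.MP_984acc_gt.OrderRaising Run7.h31.Raise

universe u v

/-- The elements `a` and `b` are joined by an edge of the Cayley graph of the generators `s` whose
height is more than `x`. The edge from `g` to `g * s j` has the height `g • w j`. -/
def EdgeAbove {H : Type u} [Group H] {X : Type v} [MulAction H X] [LinearOrder X] {k : ℕ}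
    (s : Fin k → H) (w : Fin k → X) (x : X) (a b : H) : Prop :=
  ∃ j, (b = a * s j ∧ x < a • w j) ∨ (a = b * s j ∧ x < b • w j)

/-- The group `H` has a finite family `s` of generators and an order-preserving action on a totally
ordered set `X`, heights `w j` in `X` of the edges from `1` to `s j`, and an element `g`, such that for
all but at most `c` of the `j` some path from `g` to `s j * g` consists of edges whose heights are more
than `w j`. -/
def IsPushed (H : Type u) [Group H] (c : ℕ) : Prop :=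
  ∃ (X : Type v) (_ : LinearOrder X) (_ : MulAction H X) (k : ℕ) (s : Fin k → H)
    (w : Fin k → X) (g : H) (T : Finset (Fin k)),
    OrderInvariant H X ∧ Subgroup.closure (Set.range s) = ⊤ ∧ T.card ≤ c ∧
    ∀ j, j ∉ T → Relation.ReflTransGen (EdgeAbove s w (w j)) g (s j * g)

section
variable {H : Type u} [Group H] {X : Type v} [LinearOrder X] [MulAction H X]

/-- the difference of `b` and `a` is the boundary of `y` -/
def Dif {k : ℕ} (s : Fin k → H) (y : Fin k → MonoidAlgebra ℂ H) (a b : H) : Prop :=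
  ∑ j, y j * (MonoidAlgebra.single (s j) 1 - MonoidAlgebra.single 1 1)
    = MonoidAlgebra.single b 1 - MonoidAlgebra.single a 1

theorem Dif.refl {k : ℕ} (s : Fin k → H) (a : H) : Dif s 0 a a := by
  unfold Dif
  rw [sub_self]
  exact Finset.sum_eq_zero fun j _ => zero_mul _

theorem Dif.add {k : ℕ} {s : Fin k → H} {y z : Fin k → MonoidAlgebra ℂ H} {a b c : H}
    (h1 : Dif s y a b) (h2 : Dif s z b c) : Dif s (y + z) a c := by
  unfold Dif at *
  have e : ∑ j, (y + z) j * (MonoidAlgebra.single (s j) (1 : ℂ) - MonoidAlgebra.single 1 1)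
      = (∑ j, y j * (MonoidAlgebra.single (s j) 1 - MonoidAlgebra.single 1 1))
        + ∑ j, z j * (MonoidAlgebra.single (s j) 1 - MonoidAlgebra.single 1 1) := by
    rw [← Finset.sum_add_distrib]
    exact Finset.sum_congr rfl fun j _ => add_mul _ _ _
  rw [e, h1, h2]
  abel

theorem Dif.neg {k : ℕ} {s : Fin k → H} {y : Fin k → MonoidAlgebra ℂ H} {a b : H}
    (h1 : Dif s y a b) : Dif s (-y) b a := by
  unfold Dif at *
  have e : ∑ j, (-y) j * (MonoidAlgebra.single (s j) (1 : ℂ) - MonoidAlgebra.single 1 1)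
      = -(∑ j, y j * (MonoidAlgebra.single (s j) 1 - MonoidAlgebra.single 1 1)) := by
    rw [← Finset.sum_neg_distrib]
    exact Finset.sum_congr rfl fun j _ => neg_mul _ _
  rw [e, h1]
  abel

theorem Dif.edge {k : ℕ} (s : Fin k → H) (a : H) (j : Fin k) :
    Dif s (Pi.single j (MonoidAlgebra.single a 1)) a (a * s j) := by
  unfold Dif
  rw [Finset.sum_eq_single j]
  · rw [Pi.single_eq_same, mul_sub, MonoidAlgebra.single_mul_single,
      MonoidAlgebra.single_mul_single, mul_one, mul_one]
  · intro l _ hl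
    rw [Pi.single_eq_of_ne hl, zero_mul]
  · intro h
    exact absurd (Finset.mem_univ j) h

theorem hmt_add {k : ℕ} {w : Fin k → X} {x : X} {y z : Fin k → MonoidAlgebra ℂ H}
    (hy : HeightsMoreThan w x y) (hz : HeightsMoreThan w x z) : HeightsMoreThan w x (y + z) := by
  classical
  intro j g hg
  rw [Pi.add_apply, MonoidAlgebra.coeff_add] at hg
  rcases Finset.mem_union.1 (Finsupp.support_add hg) with h | h
  · exact hy j g h
  · exact hz j g h

theorem hmt_neg {k : ℕ} {w : Fin k → X} {x : X} {y : Fin k → MonoidAlgebra ℂ H}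
    (hy : HeightsMoreThan w x y) : HeightsMoreThan w x (-y) := by
  intro j g hg
  apply hy j g
  rw [Finsupp.mem_support_iff] at hg ⊢
  intro h0
  apply hg
  rw [Pi.neg_apply, MonoidAlgebra.coeff_neg, Finsupp.neg_apply, h0, neg_zero]

theorem hmt_edge {k : ℕ} {w : Fin k → X} {x : X} (a : H) (j : Fin k) (h : x < a • w j) :
    HeightsMoreThan w x (Pi.single j (MonoidAlgebra.single a (1 : ℂ))) := by
  classical
  intro l g hg
  by_cases hl : l = j
  · subst hl
    rw [Pi.single_eq_same, MonoidAlgebra.coeff_single] at hg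
    have hga : g = a := Finset.mem_singleton.1 (Finsupp.support_single_subset hg)
    subst hga
    exact h
  · rw [Pi.single_eq_of_ne hl] at hg
    exact absurd hg (by simp)

theorem path_chain {k : ℕ} (s : Fin k → H) (w : Fin k → X) (x : X) {a b : H}
    (h : Relation.ReflTransGen (EdgeAbove s w x) a b) :
    ∃ y : Fin k → MonoidAlgebra ℂ H, HeightsMoreThan w x y ∧ Dif s y a b := by
  induction h with
  | refl => exact ⟨0, fun j g hg => absurd hg (by simp), Dif.refl s a⟩
  | @tail b c _ hbc ih =>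
    obtain ⟨y, hy, hyd⟩ := ih
    obtain ⟨j, ⟨rfl, h2⟩ | ⟨rfl, h2⟩⟩ := hbc
    · exact ⟨_, hmt_add hy (hmt_edge b j h2), hyd.add (Dif.edge s b j)⟩
    · exact ⟨_, hmt_add hy (hmt_neg (hmt_edge c j h2)), hyd.add (Dif.edge s c j).neg⟩

/-- translates -/
theorem Dif.smul {k : ℕ} {s : Fin k → H} {y : Fin k → MonoidAlgebra ℂ H} {a b : H} (t : H)
    (h1 : Dif s y a b) : Dif s (fun j => MonoidAlgebra.single t 1 * y j) (t * a) (t * b) := by
  unfold Dif at *
  have e : ∑ j, (MonoidAlgebra.single t 1 * y j)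
      * (MonoidAlgebra.single (s j) (1 : ℂ) - MonoidAlgebra.single 1 1)
      = MonoidAlgebra.single t 1
        * (∑ j, y j * (MonoidAlgebra.single (s j) 1 - MonoidAlgebra.single 1 1)) := by
    rw [Finset.mul_sum]
    exact Finset.sum_congr rfl fun j _ => mul_assoc _ _ _
  rw [e, h1, mul_sub, MonoidAlgebra.single_mul_single, MonoidAlgebra.single_mul_single, mul_one]

theorem gen_chain {k : ℕ} (s : Fin k → H) (hs : Subgroup.closure (Set.range s) = ⊤) (a b : H) :
    ∃ y : Fin k → MonoidAlgebra ℂ H, Dif s y a b := by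
  have key : ∀ t : H, ∃ y : Fin k → MonoidAlgebra ℂ H, Dif s y 1 t := by
    intro t
    have ht : t ∈ Subgroup.closure (Set.range s) := by
      rw [hs]
      exact Subgroup.mem_top t
    induction ht using Subgroup.closure_induction with
    | mem x hx =>
      obtain ⟨j, rfl⟩ := hx
      have := Dif.edge s 1 j
      rw [one_mul] at this
      exact ⟨_, this⟩
    | one => exact ⟨0, Dif.refl s 1⟩
    | mul x z _ _ ihx ihz =>
      obtain ⟨y1, h1⟩ := ihx
      obtain ⟨y2, h2⟩ := ihz
      have h3 := h2.smul x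
      rw [mul_one] at h3
      exact ⟨_, h1.add h3⟩
    | inv x _ ih =>
      obtain ⟨y1, h1⟩ := ih
      have h3 := h1.neg.smul x⁻¹
      rw [inv_mul_cancel, mul_one] at h3
      exact ⟨_, h3⟩
  obtain ⟨y, hy⟩ := key (a⁻¹ * b)
  have h3 := hy.smul a
  rw [mul_one, mul_inv_cancel_left] at h3
  exact ⟨_, h3⟩

theorem all_chain {k : ℕ} (s : Fin k → H) (hs : Subgroup.closure (Set.range s) = ⊤)
    (v : MonoidAlgebra ℂ H) (h0 : aug v = 0) : ∃ y : Fin k → MonoidAlgebra ℂ H,
      ∑ j, y j * (MonoidAlgebra.single (s j) 1 - MonoidAlgebra.single 1 1) = v := by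
  classical
  choose f hf using fun g => gen_chain s hs 1 g
  refine ⟨∑ g ∈ v.coeff.support, (v.coeff g) • f g, ?_⟩
  have e1 : v = ∑ g ∈ v.coeff.support, (v.coeff g) •
      (MonoidAlgebra.single g (1 : ℂ) - MonoidAlgebra.single 1 1) := by
    have e2 : ∑ g ∈ v.coeff.support, (v.coeff g) •
        (MonoidAlgebra.single g (1 : ℂ) - MonoidAlgebra.single 1 1)
        = (∑ g ∈ v.coeff.support, MonoidAlgebra.single g (v.coeff g))
          - (∑ g ∈ v.coeff.support, v.coeff g) • MonoidAlgebra.single 1 (1 : ℂ) := by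
      rw [Finset.sum_smul, ← Finset.sum_sub_distrib]
      refine Finset.sum_congr rfl fun g _ => ?_
      rw [smul_sub, MonoidAlgebra.smul_single, smul_eq_mul, mul_one]
    have e3 : ∑ g ∈ v.coeff.support, v.coeff g = 0 := h0
    rw [e2, e3, zero_smul, sub_zero]
    exact (MonoidAlgebra.sum_coeff_single v).symm
  have e4 : ∀ j, (∑ g ∈ v.coeff.support, (v.coeff g) • f g) j
      * (MonoidAlgebra.single (s j) (1 : ℂ) - MonoidAlgebra.single 1 1)
      = ∑ g ∈ v.coeff.support, (v.coeff g) •
        (f g j * (MonoidAlgebra.single (s j) (1 : ℂ) - MonoidAlgebra.single 1 1)) := by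
    intro j
    rw [Finset.sum_apply, Finset.sum_mul]
    refine Finset.sum_congr rfl fun g _ => ?_
    have e5 : (v.coeff g • f g) j = v.coeff g • f g j := rfl
    rw [e5]
    exact smul_mul_assoc (v.coeff g) (f g j)
      (MonoidAlgebra.single (s j) (1 : ℂ) - MonoidAlgebra.single 1 1)
  have e6 : ∑ j, (∑ g ∈ v.coeff.support, (v.coeff g) • f g) j
      * (MonoidAlgebra.single (s j) (1 : ℂ) - MonoidAlgebra.single 1 1)
      = ∑ g ∈ v.coeff.support, (v.coeff g) •
      (MonoidAlgebra.single g (1 : ℂ) - MonoidAlgebra.single 1 1) := by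
    rw [Finset.sum_congr rfl fun j _ => e4 j, Finset.sum_comm]
    refine Finset.sum_congr rfl fun g _ => ?_
    rw [← Finset.smul_sum]
    exact congrArg (fun t => v.coeff g • t) (hf g)
  exact e6.trans e1.symm

theorem aug_augm (y : MonoidAlgebra ℂ H) : aug y = Pool.Agent.N309.PD.augm y := by
  rw [Pool.Agent.N309.PD.augm_eq]
  rfl

theorem augm_single (t : H) : (Pool.Agent.N309.PD.augm : MonoidAlgebra ℂ H →ₐ[ℂ] ℂ)
    (MonoidAlgebra.single t 1) = 1 := by
  unfold Pool.Agent.N309.PD.augm
  rw [MonoidAlgebra.lift_single, MonoidHom.one_apply, one_smul]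

theorem gen_partial {k : ℕ} (s : Fin k → H) (hs : Subgroup.closure (Set.range s) = ⊤) :
    IsPartialResolution 1 (hE0 s) (fun _ => (1 : ℂ)) := by
  have hne : (fun _ => (1 : ℂ) : Fin (hq k 0) → ℂ) ≠ 0 := by
    intro h
    exact one_ne_zero (congrFun h (0 : Fin 1))
  refine ⟨hne, fun _ => ⟨hne, ?_⟩, fun i hi => by omega, fun i hi => by omega⟩
  intro (x : Fin 1 → MonoidAlgebra ℂ H)
  change _ ↔ ∑ i : Fin 1, aug (x i) * 1 = 0
  rw [Fin.sum_univ_one, mul_one]
  constructor
  · rintro ⟨(y : Fin k → MonoidAlgebra ℂ H), hy⟩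
    have h1 : x 0 = ∑ j : Fin k, y j *
        (MonoidAlgebra.single (s j) 1 - MonoidAlgebra.single 1 1) := by
      rw [← hy]
      rfl
    rw [h1, aug_augm, map_sum]
    apply Finset.sum_eq_zero
    intro j _
    rw [map_mul, map_sub, augm_single, augm_single, sub_self, mul_zero]
  · intro h0
    obtain ⟨y, hy⟩ := all_chain s hs (x 0) h0
    refine ⟨y, ?_⟩
    funext (l : Fin 1)
    change ∑ j : Fin k, y j * (MonoidAlgebra.single (s j) 1 - MonoidAlgebra.single 1 1) = x l
    rw [hy]
    congr 1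
    exact Subsingleton.elim (α := Fin 1) _ _

/-- A pushed group is raised in degree one. -/
theorem pushed_raised {c : ℕ} (h : IsPushed.{u, v} H c) : IsRaised.{u, v} H 1 c := by
  classical
  obtain ⟨X, _, _, k, s, w, g, T, hX, hs, hT, hp⟩ := h
  have h1 : ∀ j : Fin k, ∃ y : Fin k → MonoidAlgebra ℂ H,
      (j ∉ T → HeightsMoreThan w (w j) y) ∧ Dif s y g (s j * g) := by
    intro j
    by_cases hj : j ∈ T
    · obtain ⟨y, hy⟩ := gen_chain s hs g (s j * g)
      exact ⟨y, fun h => absurd hj h, hy⟩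
    · obtain ⟨y, hy1, hy2⟩ := path_chain s w (w j) (hp j hj)
      exact ⟨y, fun _ => hy1, hy2⟩
  choose f hf1 hf2 using h1
  let Z : ∀ i, Matrix (Fin (hq k i)) (Fin (hq k i)) (MonoidAlgebra ℂ H) := fun i =>
    match i with
    | 0 => fun _ _ => MonoidAlgebra.single g 1
    | 1 => fun j => f j
    | (_ + 2) => 0
  refine ⟨X, _, _, hq k, hE0 s, fun _ => 1, Z, w, T, hX, gen_partial s hs, ⟨?_, ?_⟩, hT,
    fun j hj => hf1 j hj⟩
  · intro (x : Fin 1 → MonoidAlgebra ℂ H)
    change ∑ i : Fin 1, aug ((x ᵥ* (Z 0)) i) * 1 = ∑ i : Fin 1, aug (x i) * 1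
    rw [Fin.sum_univ_one, Fin.sum_univ_one, mul_one, mul_one]
    have e : (x ᵥ* (Z 0)) (0 : Fin 1) = x 0 * MonoidAlgebra.single g 1 := by
      change ∑ i : Fin 1, x i * MonoidAlgebra.single g 1 = _
      rw [Fin.sum_univ_one]
    rw [e, aug_augm, map_mul, augm_single, mul_one, aug_augm]
  · intro i hi
    obtain rfl : i = 0 := by omega
    funext (j : Fin k) (l : Fin 1)
    have e1 : (hE0 s 0 * Z 0) j l = MonoidAlgebra.single (s j * g) 1
        - MonoidAlgebra.single g 1 := by
      change ∑ i : Fin 1, (MonoidAlgebra.single (s j) (1 : ℂ) - MonoidAlgebra.single 1 1)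
        * MonoidAlgebra.single g 1 = _
      rw [Fin.sum_univ_one, sub_mul, MonoidAlgebra.single_mul_single,
        MonoidAlgebra.single_mul_single, mul_one, one_mul]
    have e2 : (Z (0 + 1) * hE0 s 0) j l = MonoidAlgebra.single (s j * g) 1
        - MonoidAlgebra.single g 1 := hf2 j
    rw [e1, e2]

end

end Run7.h31.White
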