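import Pool.Agent.Run7.h31.White.Inj
import Pool.Agent.Run7.h31.Brown.Orbit

set_option autoImplicit false
set_option linter.unusedSectionVars false

open scoped Matrix

/-! Finite subcomplexes of the restriction of a complex to a subgroup of infinite index. -/

namespace Run7.h31.White

open Pool.Agent.N309.PD
open Pool.Agent.Results.MP_984acc_gt.OrderRaising Run7.h31.Raise Run7.h31.Brown

universe u v

section retract
variable {H : Type u} [Group H]

theorem retract {q0 q1 q2 p0 p1 p2 : ℕ}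
    (E0 : Matrix (Fin q1) (Fin q0) (MonoidAlgebra ℂ H))
    (E1 : Matrix (Fin q2) (Fin q1) (MonoidAlgebra ℂ H)) (a' : Fin q0 → ℂ) (ha' : a' ≠ 0)
    (hE0 : ∀ x, augF a' x = 0 → ∃ y, y ᵥ* E0 = x) (hE1 : ∀ x, x ᵥ* E0 = 0 → ∃ y, y ᵥ* E1 = x)
    (hE : E1 * E0 = 0) (hinj : ∀ x, x ᵥ* E1 = 0 → x = 0)
    (C0 : Matrix (Fin p1) (Fin p0) (MonoidAlgebra ℂ H))
    (C1 : Matrix (Fin p2) (Fin p1) (MonoidAlgebra ℂ H)) (b : Fin p0 → ℂ)
    (hC0 : ∀ y, augF b (y ᵥ* C0) = 0) (hC : C1 * C0 = 0)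
    (f0 : Matrix (Fin q0) (Fin p0) (MonoidAlgebra ℂ H))
    (f1 : Matrix (Fin q1) (Fin p1) (MonoidAlgebra ℂ H))
    (f2 : Matrix (Fin q2) (Fin p2) (MonoidAlgebra ℂ H)) (h0 : E0 * f0 = f1 * C0)
    (h1 : E1 * f1 = f2 * C1) (ha : ∀ x, augF b (x ᵥ* f0) = augF a' x) :
    ∃ (g2 : Matrix (Fin p2) (Fin q2) (MonoidAlgebra ℂ H))
      (k1 : Matrix (Fin q1) (Fin q2) (MonoidAlgebra ℂ H)), f2 * g2 + E1 * k1 = 1 := by
  obtain ⟨v, hv⟩ : ∃ v : Fin q0 → MonoidAlgebra ℂ H, augF a' v = 1 := by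
    have h2 := augF_ne (G := H) a' ha'
    obtain ⟨v, hv⟩ : ∃ v, augF (G := H) a' v ≠ 0 := by
      by_contra hcon
      push Not at hcon
      exact h2 (LinearMap.ext hcon)
    refine ⟨(augF a' v)⁻¹ • v, ?_⟩
    rw [map_smul, smul_eq_mul, inv_mul_cancel₀ hv]
  set g0 : Matrix (Fin p0) (Fin q0) (MonoidAlgebra ℂ H) :=
    fun j => augF b (Pi.single j 1 : Fin p0 → MonoidAlgebra ℂ H) • v with hg0
  have hg : ∀ x, augF a' (x ᵥ* g0) = augF b x := by
    apply (augF_char b).vecMul (augF_char a')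
    intro j
    change augF a' (augF b (Pi.single j 1 : Fin p0 → MonoidAlgebra ℂ H) • v) = _
    rw [map_smul, hv, smul_eq_mul, mul_one]
  obtain ⟨g1, hg1⟩ : ∃ g1 : Matrix (Fin p1) (Fin q1) (MonoidAlgebra ℂ H),
      g1 * E0 = C0 * g0 := by
    apply exists_row
    intro j
    apply hE0
    change augF a' ((C0 j) ᵥ* g0) = 0
    rw [hg, ← single_vecMul C0 j]
    exact hC0 _
  obtain ⟨g2, hg2⟩ : ∃ g2 : Matrix (Fin p2) (Fin q2) (MonoidAlgebra ℂ H),
      g2 * E1 = C1 * g1 := by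
    apply exists_row
    intro j
    apply hE1
    have e : (C1 * g1) * E0 = 0 := by
      rw [Matrix.mul_assoc, hg1, ← Matrix.mul_assoc, hC, Matrix.zero_mul]
    exact congrFun e j
  obtain ⟨k0, hk0⟩ : ∃ k0 : Matrix (Fin q0) (Fin q1) (MonoidAlgebra ℂ H),
      k0 * E0 = 1 - f0 * g0 := by
    apply exists_row
    intro j
    apply hE0
    rw [← single_vecMul (1 - f0 * g0) j, Matrix.vecMul_sub, Matrix.vecMul_one,
      ← Matrix.vecMul_vecMul, map_sub, hg, ha, sub_self]
  obtain ⟨k1, hk1⟩ : ∃ k1 : Matrix (Fin q1) (Fin q2) (MonoidAlgebra ℂ H),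
      k1 * E1 = 1 - f1 * g1 - E0 * k0 := by
    apply exists_row
    intro j
    apply hE1
    have e : (1 - f1 * g1 - E0 * k0) * E0 = 0 := by
      rw [Matrix.sub_mul, Matrix.sub_mul, Matrix.one_mul, Matrix.mul_assoc, hg1,
        ← Matrix.mul_assoc, ← h0, Matrix.mul_assoc E0 k0 E0, hk0, Matrix.mul_sub,
        Matrix.mul_one, ← Matrix.mul_assoc]
      abel
    exact congrFun e j
  refine ⟨g2, k1, ?_⟩
  have e : (f2 * g2 + E1 * k1 - 1) * E1 = 0 := by
    rw [Matrix.sub_mul, Matrix.add_mul, Matrix.one_mul, Matrix.mul_assoc, hg2,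
      ← Matrix.mul_assoc, ← h1, Matrix.mul_assoc E1 k1 E1, hk1, Matrix.mul_sub,
      Matrix.mul_sub, Matrix.mul_one, ← Matrix.mul_assoc E1 E0, hE, Matrix.zero_mul,
      ← Matrix.mul_assoc]
    abel
  have e2 : f2 * g2 + E1 * k1 - 1 = 0 := by
    funext j
    exact hinj _ (congrFun e j)
  exact sub_eq_zero.1 e2

end retract

section tau
variable {G : Type u} [Group G] (H : Subgroup G)

/-- the embedding of a free module over the subgroup -/
noncomputable def tau {p r : ℕ} (t : Fin p → G) (l : Fin p → Fin r)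
    (x : Fin p → MonoidAlgebra ℂ H) : Fin r → MonoidAlgebra ℂ G := by
  classical
  exact fun i => ∑ j, if l j = i then io H (x j) * MonoidAlgebra.single (t j) 1 else 0

/-- the different basis elements are in different cosets -/
def Good {p r : ℕ} (t : Fin p → G) (l : Fin p → Fin r) : Prop :=
  ∀ i j, l i = l j → t i * (t j)⁻¹ ∈ H → i = j

variable {H}

theorem tau_add {p r : ℕ} (t : Fin p → G) (l : Fin p → Fin r) (x y : Fin p → MonoidAlgebra ℂ H) :
    tau H t l (x + y) = tau H t l x + tau H t l y := by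
  classical
  funext i
  unfold tau
  rw [Pi.add_apply, ← Finset.sum_add_distrib]
  refine Finset.sum_congr rfl fun j _ => ?_
  by_cases h : l j = i
  · rw [if_pos h, if_pos h, if_pos h, Pi.add_apply, map_add, add_mul]
  · rw [if_neg h, if_neg h, if_neg h, add_zero]

theorem tau_smul {p r : ℕ} (t : Fin p → G) (l : Fin p → Fin r) (β : MonoidAlgebra ℂ H)
    (x : Fin p → MonoidAlgebra ℂ H) :
    tau H t l (fun j => β * x j) = fun i => io H β * tau H t l x i := by
  classical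
  funext i
  unfold tau
  rw [Finset.mul_sum]
  refine Finset.sum_congr rfl fun j _ => ?_
  by_cases h : l j = i
  · rw [if_pos h, if_pos h, map_mul, mul_assoc]
  · rw [if_neg h, if_neg h, mul_zero]

theorem tau_sum {p r : ℕ} {ι : Type*} (s : Finset ι) (t : Fin p → G) (l : Fin p → Fin r)
    (f : ι → Fin p → MonoidAlgebra ℂ H) :
    tau H t l (∑ k ∈ s, f k) = ∑ k ∈ s, tau H t l (f k) := by
  classical
  induction s using Finset.induction_on with
  | empty =>
    rw [Finset.sum_empty, Finset.sum_empty]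
    funext i
    unfold tau
    apply Finset.sum_eq_zero
    intro j _
    rw [Pi.zero_apply, map_zero, zero_mul, ite_self]
  | insert a s ha ih => rw [Finset.sum_insert ha, Finset.sum_insert ha, tau_add, ih]

theorem tau_vecMul {p r n : ℕ} (t : Fin p → G) (l : Fin p → Fin r)
    (x : Fin n → MonoidAlgebra ℂ H) (Y : Matrix (Fin n) (Fin p) (MonoidAlgebra ℂ H)) :
    tau H t l (x ᵥ* Y) = fun i => ∑ k, io H (x k) * tau H t l (Y k) i := by
  have e : x ᵥ* Y = ∑ k, fun j => x k * Y k j := by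
    funext j
    rw [Finset.sum_apply]
    rfl
  rw [e, tau_sum]
  funext i
  rw [Finset.sum_apply]
  exact Finset.sum_congr rfl fun k _ => congrFun (tau_smul t l (x k) (Y k)) i

theorem rr_io_self (t : G) (β : MonoidAlgebra ℂ H) :
    rr H 1 t⁻¹ (io H β * MonoidAlgebra.single t 1) = β := by
  induction β using MonoidAlgebra.induction_linear with
  | zero => rw [map_zero, zero_mul, rr_zero]
  | add a b ha hb => rw [map_add, add_mul, rr_add, ha, hb]
  | single s c =>
    rw [io_single, MonoidAlgebra.single_mul_single, mul_one]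
    have h : (1 : G)⁻¹ * ((s : G) * t) * t⁻¹ ∈ H := by
      have e : (1 : G)⁻¹ * ((s : G) * t) * t⁻¹ = s := by group
      rw [e]
      exact s.2
    rw [rr_single_mem H h]
    congr 1
    apply Subtype.ext
    change (1 : G)⁻¹ * ((s : G) * t) * t⁻¹ = s
    group

theorem rr_io_other (t t' : G) (h : t * t'⁻¹ ∉ H) (β : MonoidAlgebra ℂ H) :
    rr H 1 t'⁻¹ (io H β * MonoidAlgebra.single t 1) = 0 := by
  induction β using MonoidAlgebra.induction_linear with
  | zero => rw [map_zero, zero_mul, rr_zero]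
  | add a b ha hb => rw [map_add, add_mul, rr_add, ha, hb, add_zero]
  | single s c =>
    rw [io_single, MonoidAlgebra.single_mul_single, mul_one]
    apply rr_single_not
    intro h1
    apply h
    have e : t * t'⁻¹ = (s : G)⁻¹ * ((1 : G)⁻¹ * ((s : G) * t) * t'⁻¹) := by group
    rw [e]
    exact H.mul_mem (H.inv_mem s.2) h1

theorem tau_component {p r : ℕ} {t : Fin p → G} {l : Fin p → Fin r} (hg : Good H t l)
    (x : Fin p → MonoidAlgebra ℂ H) (j : Fin p) : rr H 1 (t j)⁻¹ (tau H t l x (l j)) = x j := by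
  classical
  unfold tau
  rw [rr_sum, Finset.sum_eq_single j]
  · rw [if_pos rfl]
    exact rr_io_self _ _
  · intro m _ hm
    by_cases h : l m = l j
    · rw [if_pos h]
      apply rr_io_other
      intro h2
      exact hm (hg m j h h2)
    · rw [if_neg h, rr_zero]
  · intro h
    exact absurd (Finset.mem_univ j) h

theorem tau_inj {p r : ℕ} {t : Fin p → G} {l : Fin p → Fin r} (hg : Good H t l)
    {x y : Fin p → MonoidAlgebra ℂ H} (h : tau H t l x = tau H t l y) : x = y := by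
  funext j
  rw [← tau_component hg x j, ← tau_component hg y j, h]

theorem tau_aug {p r : ℕ} (t : Fin p → G) (l : Fin p → Fin r) (a : Fin r → ℂ)
    (x : Fin p → MonoidAlgebra ℂ H) : augF a (tau H t l x) = augF (fun j => a (l j)) x := by
  classical
  rw [augF_apply, augF_apply]
  have h1 : ∀ i, augm (tau H t l x i) = ∑ j, if l j = i then augm (x j) else 0 := by
    intro i
    unfold tau
    rw [map_sum]
    refine Finset.sum_congr rfl fun j _ => ?_
    by_cases h : l j = i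
    · rw [if_pos h, if_pos h, map_mul]
      have h2 : (augm : MonoidAlgebra ℂ G →ₐ[ℂ] ℂ) (MonoidAlgebra.single (t j) 1) = 1 := by
        unfold augm
        rw [MonoidAlgebra.lift_single, MonoidHom.one_apply, one_smul]
      rw [h2, mul_one]
      have h3 : ∀ β : MonoidAlgebra ℂ H, (augm : MonoidAlgebra ℂ G →ₐ[ℂ] ℂ) (io H β)
          = (augm : MonoidAlgebra ℂ H →ₐ[ℂ] ℂ) β := by
        intro β
        induction β using MonoidAlgebra.induction_linear with
        | zero => rw [map_zero, map_zero, map_zero]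
        | add a b ha hb => rw [map_add, map_add, map_add, ha, hb]
        | single s c =>
          rw [io_single]
          unfold augm
          rw [MonoidAlgebra.lift_single, MonoidAlgebra.lift_single, MonoidHom.one_apply,
            MonoidHom.one_apply]
      exact h3 _
    · rw [if_neg h, if_neg h, map_zero]
  have h2 : ∀ i, augm (tau H t l x i) * a i
      = ∑ j, if l j = i then augm (x j) * a (l j) else 0 := by
    intro i
    rw [h1, Finset.sum_mul]
    refine Finset.sum_congr rfl fun j _ => ?_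
    by_cases h : l j = i
    · rw [if_pos h, if_pos h, h]
    · rw [if_neg h, if_neg h, zero_mul]
  rw [Finset.sum_congr rfl fun i _ => h2 i, Finset.sum_comm]
  refine Finset.sum_congr rfl fun j _ => ?_
  rw [Finset.sum_ite_eq, if_pos (Finset.mem_univ _)]

end tau

section cover
variable {G : Type u} [Group G] {H : Subgroup G}

theorem cover_single {r : ℕ} (W : Finset (Fin r × (G ⧸ H))) (e : Fin W.card ≃ W) (i : Fin r)
    (g : G) (c : ℂ) (hg : (i, ((g⁻¹ : G) : G ⧸ H)) ∈ W) :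
    ∑ j, (if (e j).1.1 = i then
      io H (rr H 1 ((e j).1.2.out) (MonoidAlgebra.single g c))
        * MonoidAlgebra.single ((e j).1.2.out)⁻¹ 1 else 0) = MonoidAlgebra.single g c := by
  classical
  rw [Finset.sum_eq_single (e.symm ⟨_, hg⟩)]
  · rw [Equiv.apply_symm_apply, if_pos rfl]
    have h : (1 : G)⁻¹ * g * ((g⁻¹ : G) : G ⧸ H).out ∈ H := by
      have h1 : ((g⁻¹ : G) : G ⧸ H) = (((g⁻¹ : G) : G ⧸ H).out : G ⧸ H) :=
        (QuotientGroup.out_eq' _).symm
      rw [QuotientGroup.eq, inv_inv] at h1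
      rw [inv_one, one_mul]
      exact h1
    rw [rr_single_mem H h, io_single, MonoidAlgebra.single_mul_single, mul_one]
    congr 1
    change (1 : G)⁻¹ * g * ((g⁻¹ : G) : G ⧸ H).out * (((g⁻¹ : G) : G ⧸ H).out)⁻¹ = g
    group
  · intro j _ hj
    by_cases h : (e j).1.1 = i
    · rw [if_pos h]
      have h2 : (1 : G)⁻¹ * g * (e j).1.2.out ∉ H := by
        intro h3
        apply hj
        rw [Equiv.eq_symm_apply]
        apply Subtype.ext
        apply Prod.ext h
        rw [inv_one, one_mul] at h3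
        have h4 : ((g⁻¹ : G) : G ⧸ H) = ((e j).1.2.out : G ⧸ H) := by
          rw [QuotientGroup.eq, inv_inv]
          exact h3
        exact ((QuotientGroup.out_eq' _).symm.trans h4.symm)
      rw [rr_single_not H h2, map_zero, zero_mul]
    · rw [if_neg h]
  · intro h
    exact absurd (Finset.mem_univ _) h

theorem cover_elem {r : ℕ} (W : Finset (Fin r × (G ⧸ H))) (e : Fin W.card ≃ W) (i : Fin r)
    (α : MonoidAlgebra ℂ G) (hα : ∀ g ∈ α.coeff.support, (i, ((g⁻¹ : G) : G ⧸ H)) ∈ W) :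
    ∑ j, (if (e j).1.1 = i then
      io H (rr H 1 ((e j).1.2.out) α) * MonoidAlgebra.single ((e j).1.2.out)⁻¹ 1 else 0) = α := by
  classical
  have h1 : ∀ (s : Finset G) (f : G → ℂ), (∀ g ∈ s, (i, ((g⁻¹ : G) : G ⧸ H)) ∈ W) →
      ∑ j, (if (e j).1.1 = i then
        io H (rr H 1 ((e j).1.2.out) (∑ g ∈ s, MonoidAlgebra.single g (f g)))
          * MonoidAlgebra.single ((e j).1.2.out)⁻¹ 1 else 0)
      = ∑ g ∈ s, MonoidAlgebra.single g (f g) := by
    intro s f hs
    have h2 : ∀ j, (if (e j).1.1 = i then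
        io H (rr H 1 ((e j).1.2.out) (∑ g ∈ s, MonoidAlgebra.single g (f g)))
          * MonoidAlgebra.single ((e j).1.2.out)⁻¹ 1 else 0)
        = ∑ g ∈ s, (if (e j).1.1 = i then
        io H (rr H 1 ((e j).1.2.out) (MonoidAlgebra.single g (f g)))
          * MonoidAlgebra.single ((e j).1.2.out)⁻¹ 1 else 0) := by
      intro j
      by_cases h : (e j).1.1 = i
      · rw [if_pos h, rr_sum, map_sum, Finset.sum_mul]
        exact Finset.sum_congr rfl fun g _ => (if_pos h).symm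
      · rw [if_neg h]
        exact (Finset.sum_eq_zero fun g _ => if_neg h).symm
    rw [Finset.sum_congr rfl fun j _ => h2 j, Finset.sum_comm]
    exact Finset.sum_congr rfl fun g hg => cover_single W e i g _ (hs g hg)
  have h2 := h1 α.coeff.support α.coeff hα
  rwa [← alg_sum α] at h2

theorem exists_good {r : ℕ} {ι : Type*} [Fintype ι] (v : ι → Fin r → MonoidAlgebra ℂ G) :
    ∃ (p : ℕ) (t : Fin p → G) (l : Fin p → Fin r), Good H t l ∧
      ∀ k, ∃ x, tau H t l x = v k := by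
  classical
  set W : Finset (Fin r × (G ⧸ H)) := Finset.univ.biUnion (fun k : ι => Finset.univ.biUnion
    (fun i : Fin r => (v k i).coeff.support.image (fun g : G => (i, ((g⁻¹ : G) : G ⧸ H)))))
    with hW
  have hW' : ∀ k i, ∀ g ∈ (v k i).coeff.support, (i, ((g⁻¹ : G) : G ⧸ H)) ∈ W := by
    intro k i g hg
    rw [hW]
    exact Finset.mem_biUnion.2 ⟨k, Finset.mem_univ _, Finset.mem_biUnion.2 ⟨i,
      Finset.mem_univ _, Finset.mem_image_of_mem _ hg⟩⟩
  let e : Fin W.card ≃ W := W.equivFin.symm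
  refine ⟨W.card, fun j => ((e j).1.2.out)⁻¹, fun j => (e j).1.1, ?_, ?_⟩
  · intro i j hij h
    apply e.injective
    apply Subtype.ext
    apply Prod.ext hij
    rw [inv_inv] at h
    have h1 : ((e i).1.2.out : G ⧸ H) = ((e j).1.2.out : G ⧸ H) := by
      rw [QuotientGroup.eq]
      exact h
    rwa [QuotientGroup.out_eq', QuotientGroup.out_eq'] at h1
  · intro k
    refine ⟨fun j => rr H 1 ((e j).1.2.out) (v k (e j).1.1), ?_⟩
    funext i
    rw [← cover_elem W e i (v k i) (hW' k i)]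
    unfold tau
    refine Finset.sum_congr rfl fun j _ => ?_
    by_cases h : (e j).1.1 = i
    · rw [if_pos h, if_pos h, ← h]
    · rw [if_neg h, if_neg h]

/-- the basis vectors -/
noncomputable def bas {p r : ℕ} (t : Fin p → G) (l : Fin p → Fin r) (j : Fin p) :
    Fin r → MonoidAlgebra ℂ G := tau H t l (Pi.single j 1)

theorem tau_bas {p r : ℕ} (t : Fin p → G) (l : Fin p → Fin r) (x : Fin p → MonoidAlgebra ℂ H) :
    tau H t l x = fun i => ∑ j, io H (x j) * bas (H := H) t l j i := by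
  have h1 := tau_vecMul t l x (1 : Matrix (Fin p) (Fin p) (MonoidAlgebra ℂ H))
  rw [Matrix.vecMul_one] at h1
  rw [h1]
  funext i
  refine Finset.sum_congr rfl fun j _ => ?_
  unfold bas
  rw [← single_vecMul (1 : Matrix (Fin p) (Fin p) (MonoidAlgebra ℂ H)) j, Matrix.vecMul_one]

theorem comb_vecMul {n r r' : ℕ} (x : Fin n → MonoidAlgebra ℂ G)
    (B : Fin n → Fin r → MonoidAlgebra ℂ G) (D : Matrix (Fin r) (Fin r') (MonoidAlgebra ℂ G)) :
    (fun i => ∑ j, x j * B j i) ᵥ* D = fun i => ∑ j, x j * (B j ᵥ* D) i := by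
  funext i
  change ∑ k, (∑ j, x j * B j k) * D k i = ∑ j, x j * ∑ k, B j k * D k i
  have h1 : ∀ k, (∑ j, x j * B j k) * D k i = ∑ j, x j * (B j k * D k i) := by
    intro k
    rw [Finset.sum_mul]
    exact Finset.sum_congr rfl fun j _ => mul_assoc _ _ _
  rw [Finset.sum_congr rfl fun k _ => h1 k, Finset.sum_comm]
  exact Finset.sum_congr rfl fun j _ => (Finset.mul_sum _ _ _).symm

/-- the boundary operator of the subcomplex -/
theorem exists_boundary {p1 p0 r1 r0 : ℕ} (t1 : Fin p1 → G) (l1 : Fin p1 → Fin r1)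
    (t0 : Fin p0 → G) (l0 : Fin p0 → Fin r0) (D : Matrix (Fin r1) (Fin r0) (MonoidAlgebra ℂ G))
    (h : ∀ j, ∃ x, tau H t0 l0 x = bas (H := H) t1 l1 j ᵥ* D) :
    ∃ C : Matrix (Fin p1) (Fin p0) (MonoidAlgebra ℂ H),
      ∀ x, tau H t0 l0 (x ᵥ* C) = tau H t1 l1 x ᵥ* D := by
  obtain ⟨C, hC⟩ : ∃ C : Matrix (Fin p1) (Fin p0) (MonoidAlgebra ℂ H),
      ∀ j, tau H t0 l0 (C j) = bas (H := H) t1 l1 j ᵥ* D := by
    choose C hC using h
    exact ⟨C, hC⟩
  refine ⟨C, fun x => ?_⟩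
  rw [tau_vecMul, tau_bas t1 l1 x, comb_vecMul]
  funext i
  refine Finset.sum_congr rfl fun j _ => ?_
  rw [hC]

/-- A finite free resolution of a subgroup is a retract, in the top degree, of a finite part of a
resolution of the group. -/
theorem exists_retract {r0 r1 r2 q0 q1 q2 : ℕ}
    (D0 : Matrix (Fin r1) (Fin r0) (MonoidAlgebra ℂ G))
    (D1 : Matrix (Fin r2) (Fin r1) (MonoidAlgebra ℂ G)) (a : Fin r0 → ℂ) (ha : a ≠ 0)
    (hD0 : ∀ x, augF a x = 0 → ∃ y, y ᵥ* D0 = x) (hD0' : ∀ y, augF a (y ᵥ* D0) = 0)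
    (hD1 : ∀ x, x ᵥ* D0 = 0 → ∃ y, y ᵥ* D1 = x) (hD : D1 * D0 = 0)
    (E0 : Matrix (Fin q1) (Fin q0) (MonoidAlgebra ℂ H))
    (E1 : Matrix (Fin q2) (Fin q1) (MonoidAlgebra ℂ H)) (a' : Fin q0 → ℂ) (ha' : a' ≠ 0)
    (hE0 : ∀ x, augF a' x = 0 → ∃ y, y ᵥ* E0 = x) (hE0' : ∀ y, augF a' (y ᵥ* E0) = 0)
    (hE1 : ∀ x, x ᵥ* E0 = 0 → ∃ y, y ᵥ* E1 = x)
    (hE : E1 * E0 = 0) (hinj : ∀ x, x ᵥ* E1 = 0 → x = 0) :
    ∃ (F1 : Matrix (Fin q1) (Fin r1) (MonoidAlgebra ℂ G))
      (F2 : Matrix (Fin q2) (Fin r2) (MonoidAlgebra ℂ G)) (p : ℕ) (t : Fin p → G)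
      (l : Fin p → Fin r2) (f2 : Matrix (Fin q2) (Fin p) (MonoidAlgebra ℂ H))
      (g2 : Matrix (Fin p) (Fin q2) (MonoidAlgebra ℂ H))
      (k1 : Matrix (Fin q1) (Fin q2) (MonoidAlgebra ℂ H)),
      E1.map (io H) * F1 = F2 * D1 ∧ Good H t l ∧ (∀ k, tau H t l (f2 k) = F2 k) ∧
        f2 * g2 + E1 * k1 = 1 := by
  obtain ⟨v, hv⟩ : ∃ v : Fin r0 → MonoidAlgebra ℂ G, augF a v = 1 := by
    have h2 := augF_ne (G := G) a ha
    obtain ⟨v, hv⟩ : ∃ v, augF (G := G) a v ≠ 0 := by
      by_contra hcon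
      push Not at hcon
      exact h2 (LinearMap.ext hcon)
    refine ⟨(augF a v)⁻¹ • v, ?_⟩
    rw [map_smul, smul_eq_mul, inv_mul_cancel₀ hv]
  set F0 : Matrix (Fin q0) (Fin r0) (MonoidAlgebra ℂ G) := fun j => (a' j) • v with hF0
  have haug : ∀ β : MonoidAlgebra ℂ H, (augm : MonoidAlgebra ℂ G →ₐ[ℂ] ℂ) (io H β)
      = (augm : MonoidAlgebra ℂ H →ₐ[ℂ] ℂ) β := by
    intro β
    induction β using MonoidAlgebra.induction_linear with
    | zero => rw [map_zero, map_zero, map_zero]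
    | add a b ha hb => rw [map_add, map_add, map_add, ha, hb]
    | single s c =>
      rw [io_single]
      unfold augm
      rw [MonoidAlgebra.lift_single, MonoidAlgebra.lift_single, MonoidHom.one_apply,
        MonoidHom.one_apply]
  have hF0a : ∀ x : Fin q0 → MonoidAlgebra ℂ H,
      augF a ((fun i => io H (x i)) ᵥ* F0) = augF a' x := by
    intro x
    have e1 : ∀ j, augm ((x j)) * a' j = augm (io H (x j)) * a' j := fun j => by rw [haug]
    rw [augF_apply a' x, Finset.sum_congr rfl fun j _ => e1 j, ← augF_apply a']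
    apply (augF_char a').vecMul (augF_char a)
    intro j
    change augF a ((a' j) • v) = _
    rw [map_smul, hv, smul_eq_mul, mul_one, augF_apply, Finset.sum_eq_single j]
    · rw [Pi.single_eq_same, map_one, one_mul]
    · intro i _ hi
      rw [Pi.single_eq_of_ne hi, map_zero, zero_mul]
    · intro h
      exact absurd (Finset.mem_univ j) h
  obtain ⟨F1, hF1⟩ : ∃ F1 : Matrix (Fin q1) (Fin r1) (MonoidAlgebra ℂ G),
      F1 * D0 = E0.map (io H) * F0 := by
    apply exists_row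
    intro j
    apply hD0
    have h1 := hF0a (E0 j)
    have h2 := hE0' (Pi.single j 1)
    rw [single_vecMul] at h2
    rw [h2] at h1
    exact h1
  obtain ⟨F2, hF2⟩ : ∃ F2 : Matrix (Fin q2) (Fin r2) (MonoidAlgebra ℂ G),
      F2 * D1 = E1.map (io H) * F1 := by
    apply exists_row
    intro j
    apply hD1
    have e : (E1.map (io H) * F1) * D0 = 0 := by
      rw [Matrix.mul_assoc, hF1, ← Matrix.mul_assoc, ← Matrix.map_mul, hE,
        Matrix.map_zero _ (map_zero (io H)), Matrix.zero_mul]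
    exact congrFun e j
  obtain ⟨p2, t2, l2, hg2, hc2⟩ := exists_good (H := H) F2
  obtain ⟨p1, t1, l1, hg1, hc1⟩ := exists_good (H := H)
    (fun k : Fin q1 ⊕ Fin p2 => Sum.elim F1 (fun j => bas (H := H) t2 l2 j ᵥ* D1) k)
  obtain ⟨p0, t0, l0, hg0, hc0⟩ := exists_good (H := H)
    (fun k : Fin q0 ⊕ Fin p1 => Sum.elim F0 (fun j => bas (H := H) t1 l1 j ᵥ* D0) k)
  obtain ⟨C1, hC1⟩ := exists_boundary (H := H) t2 l2 t1 l1 D1 (fun j => hc1 (Sum.inr j))
  obtain ⟨C0, hC0⟩ := exists_boundary (H := H) t1 l1 t0 l0 D0 (fun j => hc0 (Sum.inr j))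
  obtain ⟨f2, hf2⟩ : ∃ f2 : Matrix (Fin q2) (Fin p2) (MonoidAlgebra ℂ H),
      ∀ k, tau H t2 l2 (f2 k) = F2 k := by
    choose f hf using hc2
    exact ⟨f, hf⟩
  obtain ⟨f1, hf1'⟩ : ∃ f1 : Matrix (Fin q1) (Fin p1) (MonoidAlgebra ℂ H),
      ∀ k, tau H t1 l1 (f1 k) = F1 k := by
    choose f hf using fun k => hc1 (Sum.inl k)
    exact ⟨f, hf⟩
  obtain ⟨f0, hf0'⟩ : ∃ f0 : Matrix (Fin q0) (Fin p0) (MonoidAlgebra ℂ H),
      ∀ k, tau H t0 l0 (f0 k) = F0 k := by
    choose f hf using fun k => hc0 (Sum.inl k)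
    exact ⟨f, hf⟩
  have hcomp : C1 * C0 = 0 := by
    funext j
    apply tau_inj hg0
    have e : (C1 * C0) j = ((Pi.single j 1 : Fin p2 → MonoidAlgebra ℂ H) ᵥ* C1) ᵥ* C0 := by
      rw [Matrix.vecMul_vecMul, single_vecMul]
    rw [e, hC0, hC1, Matrix.vecMul_vecMul, hD, Matrix.vecMul_zero]
    have e0 := tau_smul t0 l0 0 (fun _ : Fin p0 => (0 : MonoidAlgebra ℂ H))
    rw [map_zero] at e0
    have e1 : (fun j : Fin p0 => (0 : MonoidAlgebra ℂ H) * 0) = (0 : Matrix (Fin p2) (Fin p0)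
        (MonoidAlgebra ℂ H)) j := by
      funext m
      exact mul_zero _
    rw [← e1, e0]
    funext i
    exact (zero_mul _).symm
  obtain ⟨g2, k1, hk⟩ := retract E0 E1 a' ha' hE0 hE1 hE hinj C0 C1 (fun j => a (l0 j)) (by
    intro y
    rw [← tau_aug t0 l0 a, hC0]
    exact hD0' _) hcomp f0 f1 f2 (by
    funext j
    apply tau_inj hg0
    change tau H t0 l0 ((E0 j) ᵥ* f0) = tau H t0 l0 ((f1 j) ᵥ* C0)
    rw [hC0, hf1', tau_vecMul]
    have e : (F1 * D0) j = (E0.map (io H) * F0) j := by rw [hF1]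
    have e' : F1 j ᵥ* D0 = (E0.map (io H) * F0) j := e
    rw [e']
    funext i
    exact Finset.sum_congr rfl fun k _ => by rw [hf0']; rfl) (by
    funext j
    apply tau_inj hg1
    change tau H t1 l1 ((E1 j) ᵥ* f1) = tau H t1 l1 ((f2 j) ᵥ* C1)
    rw [hC1, hf2, tau_vecMul]
    have e : (F2 * D1) j = (E1.map (io H) * F1) j := by rw [hF2]
    have e' : F2 j ᵥ* D1 = (E1.map (io H) * F1) j := e
    rw [e']
    funext i
    exact Finset.sum_congr rfl fun k _ => by rw [hf1']; rfl) (by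
    intro x
    rw [← tau_aug t0 l0 a, tau_vecMul, ← hF0a x]
    congr 1
    funext i
    exact Finset.sum_congr rfl fun k _ => by rw [hf0'])
  exact ⟨F1, F2, p2, t2, l2, f2, g2, k1, hF2.symm, hg2, hf2, hk⟩

end cover

end Run7.h31.White
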